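import Pool.Agent.N193.PS.Frac

set_option autoImplicit false

/-! Exponential sums over randomly rounded real numbers. -/

namespace Pool.Agent.J4.H66.RP
open Finset
open Pool.Agent.H469R2.NK (e norm_e e_add conj_e e_zero)
open Pool.Agent.N193.PS (DK DK_le DK_sq fejer_avg e_lip e_int')

/-- the mean of `e (- θ (v - Y))`, where `Y` is one of the two integers nearest to `v`, and `s` is the fractional part of `v` -/
noncomputable def psi (θ s : ℝ) : ℂ := ((1 - s : ℝ) : ℂ) * e (-(θ * s)) + ((s : ℝ) : ℂ) * e (θ * (1 - s))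

lemma psi_zero (θ : ℝ) : psi θ 0 = 1 := by
  unfold psi
  simp [e_zero]

lemma psi_one (θ : ℝ) : psi θ 1 = 1 := by
  unfold psi
  simp [e_zero]

lemma norm_psi (θ s : ℝ) (h0 : 0 ≤ s) (h1 : s ≤ 1) : ‖psi θ s‖ ≤ 1 := by
  unfold psi
  refine (norm_add_le _ _).trans ?_
  rw [norm_mul, norm_mul, norm_e, norm_e, mul_one, mul_one, Complex.norm_real, Complex.norm_real,
    Real.norm_of_nonneg (by linarith), Real.norm_of_nonneg h0]
  linarith

lemma psi_lip (θ : ℝ) (hθ : |θ| ≤ 1) (s t : ℝ) (hs0 : 0 ≤ s) (hs1 : s ≤ 1) (ht0 : 0 ≤ t) (ht1 : t ≤ 1) :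
    ‖psi θ s - psi θ t‖ ≤ 16 * |s - t| := by
  have e1 : psi θ s - psi θ t = ((t - s : ℝ) : ℂ) * e (-(θ * s)) + ((1 - t : ℝ) : ℂ) * (e (-(θ * s)) - e (-(θ * t)))
      + ((s - t : ℝ) : ℂ) * e (θ * (1 - s)) + ((t : ℝ) : ℂ) * (e (θ * (1 - s)) - e (θ * (1 - t))) := by
    unfold psi
    push_cast
    ring
  rw [e1]
  have n1 : ‖((t - s : ℝ) : ℂ) * e (-(θ * s))‖ ≤ |s - t| := by
    rw [norm_mul, norm_e, mul_one, Complex.norm_real, Real.norm_eq_abs, abs_sub_comm]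
  have n3 : ‖((s - t : ℝ) : ℂ) * e (θ * (1 - s))‖ ≤ |s - t| := by
    rw [norm_mul, norm_e, mul_one, Complex.norm_real, Real.norm_eq_abs]
  have hst : 0 ≤ |s - t| := abs_nonneg _
  have hθst : |θ| * |s - t| ≤ |s - t| := mul_le_of_le_one_left hst hθ
  have n2 : ‖((1 - t : ℝ) : ℂ) * (e (-(θ * s)) - e (-(θ * t)))‖ ≤ 7 * |s - t| := by
    rw [norm_mul, Complex.norm_real, Real.norm_of_nonneg (by linarith)]
    have h1 := e_lip (-(θ * s)) (-(θ * t))
    have h2 : |-(θ * s) - -(θ * t)| = |θ| * |s - t| := by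
      rw [← abs_mul, ← abs_neg]
      congr 1
      ring
    rw [h2] at h1
    calc (1 - t) * ‖e (-(θ * s)) - e (-(θ * t))‖ ≤ 1 * ‖e (-(θ * s)) - e (-(θ * t))‖ :=
          mul_le_mul_of_nonneg_right (by linarith) (norm_nonneg _)
      _ ≤ _ := by linarith
  have n4 : ‖((t : ℝ) : ℂ) * (e (θ * (1 - s)) - e (θ * (1 - t)))‖ ≤ 7 * |s - t| := by
    rw [norm_mul, Complex.norm_real, Real.norm_of_nonneg ht0]
    have h1 := e_lip (θ * (1 - s)) (θ * (1 - t))
    have h2 : |θ * (1 - s) - θ * (1 - t)| = |θ| * |s - t| := by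
      rw [← abs_mul, ← abs_neg]
      congr 1
      ring
    rw [h2] at h1
    calc t * ‖e (θ * (1 - s)) - e (θ * (1 - t))‖ ≤ 1 * ‖e (θ * (1 - s)) - e (θ * (1 - t))‖ :=
          mul_le_mul_of_nonneg_right ht1 (norm_nonneg _)
      _ ≤ _ := by linarith
  have := norm_add_le (((t - s : ℝ) : ℂ) * e (-(θ * s)) + ((1 - t : ℝ) : ℂ) * (e (-(θ * s)) - e (-(θ * t)))
      + ((s - t : ℝ) : ℂ) * e (θ * (1 - s))) (((t : ℝ) : ℂ) * (e (θ * (1 - s)) - e (θ * (1 - t))))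
  have := norm_add_le (((t - s : ℝ) : ℂ) * e (-(θ * s)) + ((1 - t : ℝ) : ℂ) * (e (-(θ * s)) - e (-(θ * t))))
      (((s - t : ℝ) : ℂ) * e (θ * (1 - s)))
  have := norm_add_le (((t - s : ℝ) : ℂ) * e (-(θ * s))) (((1 - t : ℝ) : ℂ) * (e (-(θ * s)) - e (-(θ * t))))
  linarith

/-- the function is Lipschitz on the circle -/
lemma psi_circle (θ : ℝ) (hθ : |θ| ≤ 1) (u c r : ℝ) (hc0 : 0 ≤ c) (hc1 : c < 1)
    (h : Int.fract (u - c) < r ∨ 1 - r < Int.fract (u - c)) : ‖psi θ (Int.fract u) - psi θ c‖ ≤ 16 * r := by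
  obtain ⟨t, ht⟩ : ∃ t, t = Int.fract (u - c) := ⟨_, rfl⟩
  have ht0 : 0 ≤ t := by rw [ht]; exact Int.fract_nonneg _
  have ht1 : t < 1 := by rw [ht]; exact Int.fract_lt_one _
  have hu : u = (⌊u - c⌋ : ℤ) + (c + t) := by
    rw [ht, ← Int.self_sub_floor]; ring
  rw [← ht] at h
  have hfr : Int.fract u = Int.fract (c + t) := by
    conv_lhs => rw [hu]
    rw [Int.fract_intCast_add]
  rw [hfr]
  have hfr1 : c + t < 1 → Int.fract (c + t) = c + t := fun h' => Int.fract_eq_self.2 ⟨by linarith, h'⟩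
  have hfr2 : 1 ≤ c + t → Int.fract (c + t) = c + t - 1 := fun h' => by
    have : c + t = (c + t - 1) + 1 := by ring
    rw [this, Int.fract_add_one, Int.fract_eq_self.2 ⟨by linarith, by linarith⟩]
    ring
  rcases h with h | h
  · rcases lt_or_ge (c + t) 1 with h1 | h1
    · rw [hfr1 h1]
      refine (psi_lip θ hθ _ _ (by linarith) h1.le hc0 hc1.le).trans ?_
      rw [add_sub_cancel_left, abs_of_nonneg ht0]
      linarith
    · rw [hfr2 h1]
      have e1 : psi θ (c + t - 1) - psi θ c = (psi θ (c + t - 1) - psi θ 0) + (psi θ 1 - psi θ c) := by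
        rw [psi_zero, psi_one]; ring
      rw [e1]
      have a1 := psi_lip θ hθ (c + t - 1) 0 (by linarith) (by linarith) le_rfl zero_le_one
      have a2 := psi_lip θ hθ 1 c zero_le_one le_rfl hc0 hc1.le
      rw [sub_zero, abs_of_nonneg (by linarith)] at a1
      rw [abs_of_nonneg (by linarith)] at a2
      refine (norm_add_le _ _).trans ?_
      linarith
  · rcases lt_or_ge (c + t) 1 with h1 | h1
    · rw [hfr1 h1]
      have e1 : psi θ (c + t) - psi θ c = (psi θ (c + t) - psi θ 1) + (psi θ 0 - psi θ c) := by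
        rw [psi_zero, psi_one]; ring
      rw [e1]
      have a1 := psi_lip θ hθ (c + t) 1 (by linarith) (by linarith) zero_le_one le_rfl
      have a2 := psi_lip θ hθ 0 c le_rfl zero_le_one hc0 hc1.le
      rw [abs_of_nonpos (by linarith)] at a1
      rw [abs_of_nonpos (by linarith)] at a2
      refine (norm_add_le _ _).trans ?_
      linarith
    · rw [hfr2 h1]
      refine (psi_lip θ hθ _ _ (by linarith) (by linarith) hc0 hc1.le).trans ?_
      rw [abs_of_nonpos (by linarith)]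
      linarith

/-- the approximation by a trigonometric polynomial -/
lemma approx2 (M : ℕ) (hM : 1 ≤ M) (θ : ℝ) (hθ : |θ| ≤ 1) (u r : ℝ) (hr : 0 < r) :
    ‖psi θ (Int.fract u) - (1 / (M : ℂ) ^ 2) * ∑ j ∈ range M, psi θ (j / M) * ((‖DK M (u - j / M)‖ ^ 2 : ℝ) : ℂ)‖ ≤
      16 * r + 2 / (M * r ^ 2) := by
  have hM0 : (0 : ℝ) < M := by exact_mod_cast hM
  have hMc : (M : ℂ) ≠ 0 := by exact_mod_cast hM0.ne'
  have havg := fejer_avg M hM u
  have h3 : psi θ (Int.fract u) - (1 / (M : ℂ) ^ 2) * ∑ j ∈ range M, psi θ (j / M) * ((‖DK M (u - j / M)‖ ^ 2 : ℝ) : ℂ) =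
      (1 / (M : ℂ) ^ 2) * ∑ j ∈ range M, (psi θ (Int.fract u) - psi θ (j / M)) * ((‖DK M (u - j / M)‖ ^ 2 : ℝ) : ℂ) := by
    simp only [sub_mul, sum_sub_distrib, mul_sub]
    congr 1
    rw [← mul_sum, ← Complex.ofReal_sum, havg]
    push_cast
    field_simp
  rw [h3, norm_mul]
  have h4 : ‖(1 / (M : ℂ) ^ 2)‖ = 1 / (M : ℝ) ^ 2 := by
    rw [norm_div, norm_one, norm_pow, Complex.norm_natCast]
  rw [h4]
  have h5 : ‖∑ j ∈ range M, (psi θ (Int.fract u) - psi θ (j / M)) * ((‖DK M (u - j / M)‖ ^ 2 : ℝ) : ℂ)‖ ≤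
      ∑ j ∈ range M, (16 * r * ‖DK M (u - j / M)‖ ^ 2 + 2 / r ^ 2) := by
    refine (norm_sum_le _ _).trans (sum_le_sum fun j hj => ?_)
    rw [mem_range] at hj
    have hj0 : (0 : ℝ) ≤ (j : ℝ) / M := by positivity
    have hj1 : (j : ℝ) / M < 1 := by
      rw [div_lt_one hM0]
      exact_mod_cast hj
    rw [norm_mul, Complex.norm_real, Real.norm_of_nonneg (sq_nonneg _)]
    by_cases h6 : Int.fract (u - j / M) < r ∨ 1 - r < Int.fract (u - j / M)
    · have h7 := psi_circle θ hθ u (j / M) r hj0 hj1 h6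
      have h8 : 0 ≤ 2 / r ^ 2 := by positivity
      have h9 := mul_le_mul_of_nonneg_right h7 (sq_nonneg ‖DK M (u - j / M)‖)
      linarith
    · push Not at h6
      have h7 : ‖psi θ (Int.fract u) - psi θ (j / M)‖ ≤ 2 := by
        refine (norm_sub_le _ _).trans ?_
        have a1 := norm_psi θ (Int.fract u) (Int.fract_nonneg _) (Int.fract_lt_one _).le
        have a2 := norm_psi θ ((j : ℝ) / M) hj0 hj1.le
        linarith
      have h9 := DK_le M (u - j / M) r hr h6.1 h6.2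
      have h10 : ‖DK M (u - j / M)‖ ^ 2 ≤ 1 / r ^ 2 := by
        calc ‖DK M (u - j / M)‖ ^ 2 ≤ (1 / r) ^ 2 := pow_le_pow_left₀ (norm_nonneg _) h9 2
          _ = 1 / r ^ 2 := by rw [one_div, one_div, inv_pow]
      have h11 : 0 ≤ 16 * r * ‖DK M (u - j / M)‖ ^ 2 := by positivity
      calc _ ≤ 2 * (1 / r ^ 2) := mul_le_mul h7 h10 (sq_nonneg _) (by norm_num)
        _ = 2 / r ^ 2 := by ring
        _ ≤ _ := by linarith
  calc 1 / (M : ℝ) ^ 2 * ‖∑ j ∈ range M, (psi θ (Int.fract u) - psi θ (j / M)) * ((‖DK M (u - j / M)‖ ^ 2 : ℝ) : ℂ)‖ ≤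
      1 / (M : ℝ) ^ 2 * ∑ j ∈ range M, (16 * r * ‖DK M (u - j / M)‖ ^ 2 + 2 / r ^ 2) :=
        mul_le_mul_of_nonneg_left h5 (by positivity)
    _ = 16 * r + 2 / (M * r ^ 2) := by
        rw [sum_add_distrib, ← mul_sum, havg, sum_const, card_range, nsmul_eq_mul]
        field_simp

/-- the characteristic function of the rounded value -/
noncomputable def rnd (θ v : ℝ) : ℂ :=
  ((1 - Int.fract v : ℝ) : ℂ) * e (θ * ⌊v⌋) + ((Int.fract v : ℝ) : ℂ) * e (θ * (⌊v⌋ + 1))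

lemma rnd_eq (θ v : ℝ) : rnd θ v = e (θ * v) * psi θ (Int.fract v) := by
  unfold rnd psi
  have h1 : e (θ * ⌊v⌋) = e (θ * v) * e (-(θ * Int.fract v)) := by
    rw [← e_add]
    congr 1
    rw [← Int.self_sub_floor]
    ring
  have h2 : e (θ * (⌊v⌋ + 1)) = e (θ * v) * e (θ * (1 - Int.fract v)) := by
    rw [← e_add]
    congr 1
    rw [← Int.self_sub_floor]
    ring
  rw [h1, h2]
  ring

/-- exponential sums over randomly rounded values -/
theorem rnd_sum {ι : Type} (s : Finset ι) (f : ι → ℝ) (Q : ℕ) (hQ : 1 ≤ Q) (θ : ℝ) (hθ : |θ| ≤ 1) (E : ℝ)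
    (h1 : ∀ m : ℤ, |m| < (32768 * Q ^ 3 : ℕ) → ‖∑ n ∈ s, e ((θ + m) * f n)‖ ≤ E) :
    ‖∑ n ∈ s, rnd θ (f n)‖ ≤ 32768 * (Q : ℝ) ^ 3 * E + s.card / (2 * Q) := by
  classical
  have hQ0 : (0 : ℝ) < Q := by exact_mod_cast hQ
  obtain ⟨M, hM⟩ : ∃ M : ℕ, M = 32768 * Q ^ 3 := ⟨_, rfl⟩
  have hM1 : 1 ≤ M := by
    rw [hM]
    have : 1 ≤ Q ^ 3 := Nat.one_le_pow _ _ hQ
    omega
  have hMr : (M : ℝ) = 32768 * (Q : ℝ) ^ 3 := by rw [hM]; push_cast; ring
  have hM0 : (0 : ℝ) < M := by exact_mod_cast hM1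
  have hMc : (M : ℂ) ≠ 0 := by exact_mod_cast hM0.ne'
  rw [← hM] at h1
  obtain ⟨r, hr⟩ : ∃ r : ℝ, r = 1 / (64 * Q) := ⟨_, rfl⟩
  have hr0 : 0 < r := by rw [hr]; positivity
  set G : ℝ → ℂ := fun u => (1 / (M : ℂ) ^ 2) * ∑ j ∈ range M, psi θ (j / M) * ((‖DK M (u - j / M)‖ ^ 2 : ℝ) : ℂ) with hG
  -- the main term
  have hmain : ‖∑ n ∈ s, e (θ * f n) * G (f n)‖ ≤ M * E := by
    have h3 : ∑ n ∈ s, e (θ * f n) * G (f n) = (1 / (M : ℂ) ^ 2) * ∑ j ∈ range M, ∑ a ∈ range M, ∑ b ∈ range M,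
        psi θ (j / M) * e (-(((a : ℝ) - b) * (j / M))) * ∑ n ∈ s, e ((θ + ((a : ℤ) - b : ℤ)) * f n) := by
      simp only [hG, DK_sq, mul_sum]
      rw [sum_comm]
      refine sum_congr rfl fun j _ => ?_
      rw [sum_comm]
      refine sum_congr rfl fun a _ => ?_
      rw [sum_comm]
      refine sum_congr rfl fun b _ => ?_
      refine sum_congr rfl fun n _ => ?_
      have h4 : e (((a : ℝ) - b) * (f n - j / M)) = e (-(((a : ℝ) - b) * (j / M))) * e (((a : ℝ) - b) * f n) := by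
        rw [← e_add]
        congr 1
        ring
      have h5 : e ((θ + (((a : ℤ) - b : ℤ) : ℝ)) * f n) = e (θ * f n) * e (((a : ℝ) - b) * f n) := by
        rw [← e_add]
        congr 1
        push_cast
        ring
      rw [h4, h5]
      ring
    rw [h3, norm_mul]
    have h4 : ‖(1 / (M : ℂ) ^ 2)‖ = 1 / (M : ℝ) ^ 2 := by
      rw [norm_div, norm_one, norm_pow, Complex.norm_natCast]
    rw [h4]
    have h5 : ‖∑ j ∈ range M, ∑ a ∈ range M, ∑ b ∈ range M,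
        psi θ (j / M) * e (-(((a : ℝ) - b) * (j / M))) * ∑ n ∈ s, e ((θ + ((a : ℤ) - b : ℤ)) * f n)‖ ≤
        ∑ _j ∈ range M, ∑ _a ∈ range M, ∑ _b ∈ range M, E := by
      refine (norm_sum_le _ _).trans (sum_le_sum fun j hj => ?_)
      refine (norm_sum_le _ _).trans (sum_le_sum fun a ha => ?_)
      refine (norm_sum_le _ _).trans (sum_le_sum fun b hb => ?_)
      rw [mem_range] at ha hb hj
      have hj0 : (0 : ℝ) ≤ (j : ℝ) / M := by positivity
      have hj1 : (j : ℝ) / M < 1 := by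
        rw [div_lt_one hM0]
        exact_mod_cast hj
      rw [norm_mul, norm_mul, norm_e, mul_one]
      have h6 := h1 ((a : ℤ) - b : ℤ) (by rw [abs_lt]; constructor <;> omega)
      have h7 := norm_psi θ ((j : ℝ) / M) hj0 hj1.le
      calc ‖psi θ (j / M)‖ * ‖∑ n ∈ s, e ((θ + ((a : ℤ) - b : ℤ)) * f n)‖ ≤
          1 * ‖∑ n ∈ s, e ((θ + ((a : ℤ) - b : ℤ)) * f n)‖ := mul_le_mul_of_nonneg_right h7 (norm_nonneg _)
        _ ≤ E := by rw [one_mul]; exact h6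
    calc _ ≤ 1 / (M : ℝ) ^ 2 * ∑ _j ∈ range M, ∑ _a ∈ range M, ∑ _b ∈ range M, E :=
          mul_le_mul_of_nonneg_left h5 (by positivity)
      _ = M * E := by
          simp only [sum_const, card_range, nsmul_eq_mul]
          field_simp
  -- the error
  have herr : ‖∑ n ∈ s, e (θ * f n) * (psi θ (Int.fract (f n)) - G (f n))‖ ≤ s.card / (2 * Q) := by
    refine (norm_sum_le _ _).trans ?_
    calc ∑ n ∈ s, ‖e (θ * f n) * (psi θ (Int.fract (f n)) - G (f n))‖ ≤ ∑ n ∈ s, (1 / (2 * Q) : ℝ) := by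
          refine sum_le_sum fun n _ => ?_
          rw [norm_mul, norm_e, one_mul]
          refine (approx2 M hM1 θ hθ (f n) r hr0).trans (le_of_eq ?_)
          rw [hr, hMr]
          field_simp
          ring
      _ = s.card / (2 * Q) := by
          rw [sum_const, nsmul_eq_mul]
          ring
  have hdec : ∑ n ∈ s, rnd θ (f n) = ∑ n ∈ s, e (θ * f n) * G (f n) +
      ∑ n ∈ s, e (θ * f n) * (psi θ (Int.fract (f n)) - G (f n)) := by
    rw [← sum_add_distrib]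
    refine sum_congr rfl fun n _ => ?_
    rw [rnd_eq]
    ring
  rw [hdec, ← hMr]
  refine (norm_add_le _ _).trans ?_
  linarith

end Pool.Agent.J4.H66.RP
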