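import Pool.Agent.J4.H66.RP.Rec
import Pool.Agent.H238R3.UL.Poly
import Pool.Agent.N193.PS.Frac

set_option autoImplicit false

/-! The inverse theorem for Weyl sums with polynomial dependence. -/

namespace Pool.Agent.J4.H66.RP
open Finset Polynomial
open Pool.Agent.H469R2.NK (e norm_e e_add conj_e)
open Pool.Agent.N193.PS (DK DK_le)

lemma norm_DK_inv (N : ℕ) (b K : ℝ) (hK : 0 < K) (hN : 1 ≤ N) (h : (N : ℝ) / K ≤ ‖DK N b‖) : NI b (K / N) := by
  have hN0 : (0 : ℝ) < N := by exact_mod_cast hN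
  have hf0 := Int.fract_nonneg b
  have hf1 := Int.fract_lt_one b
  by_contra hcon
  have h1 : K / N < Int.fract b := by
    by_contra h2
    push Not at h2
    apply hcon
    refine ⟨⌊b⌋, ?_⟩
    rw [show b - ⌊b⌋ = Int.fract b from rfl, abs_of_nonneg hf0]
    exact h2
  have h2 : Int.fract b < 1 - K / N := by
    by_contra h2
    push Not at h2
    apply hcon
    refine ⟨⌊b⌋ + 1, ?_⟩
    have h3 : b - ((⌊b⌋ + 1 : ℤ) : ℝ) = Int.fract b - 1 := by
      push_cast
      rw [← Int.self_sub_floor]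
      ring
    rw [h3, abs_of_nonpos (by linarith)]
    linarith
  obtain ⟨r, hr⟩ : ∃ r, r = min (Int.fract b) (1 - Int.fract b) := ⟨_, rfl⟩
  have hr1 : K / N < r := by rw [hr]; exact lt_min h1 (by linarith)
  have hr0 : 0 < r := lt_trans (by positivity) hr1
  have h3 := DK_le N b r hr0 (by rw [hr]; exact min_le_left _ _) (by
    have := min_le_right (Int.fract b) (1 - Int.fract b)
    rw [hr]; linarith)
  have h4 : 1 / r < N / K := by
    rw [div_lt_div_iff₀ hr0 hK]
    rw [div_lt_iff₀ hN0] at hr1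
    linarith
  linarith

lemma two_pow_le {K : ℝ} (hK : 2 ≤ K) (n m : ℕ) (h : n ≤ 2 ^ m) : (n : ℝ) ≤ K ^ m := by
  calc (n : ℝ) ≤ ((2 ^ m : ℕ) : ℝ) := by exact_mod_cast h
    _ = 2 ^ m := by push_cast; ring
    _ ≤ K ^ m := pow_le_pow_left₀ (by norm_num) hK m

/-- If a Weyl sum is large then a bounded multiple of the leading coefficient is very close to an integer. -/
theorem weyl_inv (d : ℕ) : ∃ A : ℕ, ∀ K : ℝ, 2 ≤ K → ∀ N : ℕ, K ^ A ≤ N → ∀ P : ℝ[X], P.natDegree ≤ d + 1 →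
    (N : ℝ) / K ≤ ‖∑ l ∈ range N, e (P.eval (l : ℝ))‖ →
    ∃ q : ℕ, 1 ≤ q ∧ (q : ℝ) ≤ K ^ A ∧ NI (q * P.coeff (d + 1)) (K ^ A / N ^ (d + 1)) := by
  classical
  induction d with
  | zero =>
    refine ⟨1, fun K hK N hN P hP hS => ⟨1, le_rfl, ?_, ?_⟩⟩
    · rw [pow_one, Nat.cast_one]; linarith
    · rw [pow_one] at hN
      have hN1 : 1 ≤ N := by
        have : (0 : ℝ) < N := by linarith
        exact_mod_cast this
      have h2 : ∀ l ∈ range N, e (P.eval (l : ℝ)) = e (P.coeff 0) * e ((l : ℝ) * P.coeff 1) := by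
        intro l _
        rw [← e_add, eval_eq_sum_range' (n := 2) (by omega)]
        simp only [Finset.sum_range_succ, Finset.sum_range_zero]
        congr 1
        ring
      rw [Finset.sum_congr rfl h2, ← Finset.mul_sum, norm_mul, norm_e, one_mul] at hS
      have := norm_DK_inv N (P.coeff 1) K (by linarith) hN1 hS
      rw [zero_add, pow_one, pow_one, Nat.cast_one, one_mul]
      exact this
  | succ d ih =>
    obtain ⟨A, ih⟩ := ih
    obtain ⟨A', hA'⟩ : ∃ A' : ℕ, A' = 6 * (4 * A + d + 10) + d + 20 := ⟨_, rfl⟩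
    refine ⟨A', fun K hK N hN P hP hS => ?_⟩
    have hK1 : 1 ≤ K := by linarith
    have hK0 : 0 < K := by linarith
    obtain ⟨K', hK'⟩ : ∃ K' : ℝ, K' = K ^ 6 := ⟨_, rfl⟩
    have hK'2 : 2 ≤ K' := by
      rw [hK']
      calc (2 : ℝ) ≤ K ^ 1 := by rw [pow_one]; exact hK
        _ ≤ K ^ 6 := pow_le_pow_right₀ hK1 (by norm_num)
    have hK'1 : 1 ≤ K' := by linarith
    have hK'0 : 0 < K' := by linarith
    have h16 : 16 * K ^ 2 ≤ K' := by
      rw [hK', show (6 : ℕ) = 4 + 2 from rfl, pow_add]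
      apply mul_le_mul_of_nonneg_right _ (by positivity)
      calc (16 : ℝ) = 2 ^ 4 := by norm_num
        _ ≤ K ^ 4 := pow_le_pow_left₀ (by norm_num) hK 4
    have hpw : ∀ m : ℕ, m ≤ A' → K ^ m ≤ N := fun m hm => (pow_le_pow_right₀ hK1 hm).trans hN
    have hN0 : (0 : ℝ) < N := lt_of_lt_of_le (by positivity) hN
    have hN1 : (1 : ℝ) ≤ N := (one_le_pow₀ hK1).trans hN
    have hN1' : 1 ≤ N := by exact_mod_cast hN1
    -- van der Corput
    have hv := Pool.Agent.H469R2.NK.vdcH (fun l => e (P.eval (l : ℝ))) (fun l => (norm_e _).le) N N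
    obtain ⟨S, hSd⟩ : ∃ S, S = ‖∑ l ∈ range N, e (P.eval (l : ℝ))‖ := ⟨_, rfl⟩
    obtain ⟨c, hc⟩ : ∃ c : ℕ → ℝ, c = fun l => ‖∑ n ∈ range (N - l), e (P.eval ((n + l : ℕ) : ℝ)) *
        (starRingEnd ℂ) (e (P.eval (n : ℝ)))‖ := ⟨_, rfl⟩
    have hv' : (N : ℝ) * S ^ 2 ≤ (N + N) * (N + 2 * ∑ l ∈ Ico 1 N, c l) := by
      rw [hSd, hc]; exact hv
    rw [← hSd] at hS
    have hv2 : S ^ 2 ≤ 2 * N + 4 * ∑ l ∈ Ico 1 N, c l := by
      have : (N : ℝ) * S ^ 2 ≤ N * (2 * N + 4 * ∑ l ∈ Ico 1 N, c l) := by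
        refine hv'.trans (le_of_eq ?_)
        ring
      exact le_of_mul_le_mul_left this hN0
    have hcl : ∀ l, c l ≤ ((N - l : ℕ) : ℝ) := by
      intro l
      rw [hc]
      simp only
      refine (norm_sum_le _ _).trans ?_
      have : ∀ n ∈ range (N - l), ‖e (P.eval ((n + l : ℕ) : ℝ)) * (starRingEnd ℂ) (e (P.eval (n : ℝ)))‖ ≤ 1 := by
        intro n _
        rw [norm_mul, RCLike.norm_conj, norm_e, norm_e, mul_one]
      refine (sum_le_card_nsmul _ _ _ this).trans ?_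
      rw [card_range, nsmul_eq_mul, mul_one]
    have hclN : ∀ l, c l ≤ N := fun l => (hcl l).trans (by exact_mod_cast Nat.sub_le _ _)
    have hc0 : ∀ l, 0 ≤ c l := fun l => by rw [hc]; exact norm_nonneg _
    obtain ⟨H, hH⟩ : ∃ H, H = (Ico 1 N).filter (fun l => (N : ℝ) / K' ≤ c l) := ⟨_, rfl⟩
    have hHsub : H ⊆ range N := by
      intro l hl
      rw [hH, mem_filter, mem_Ico] at hl
      exact mem_range.2 hl.1.2
    have hsum : ∑ l ∈ Ico 1 N, c l ≤ H.card * N + N * (N / K') := by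
      rw [← sum_filter_add_sum_filter_not (Ico 1 N) (fun l => (N : ℝ) / K' ≤ c l), ← hH]
      apply add_le_add
      · refine (sum_le_card_nsmul _ _ _ (fun l _ => hclN l)).trans ?_
        rw [nsmul_eq_mul]
      · refine (sum_le_card_nsmul _ _ (N / K') (fun l hl => ?_)).trans ?_
        · rw [mem_filter] at hl
          exact (not_le.1 hl.2).le
        · rw [nsmul_eq_mul]
          apply mul_le_mul_of_nonneg_right _ (by positivity)
          have : ((Ico 1 N).filter (fun l => ¬ (N : ℝ) / K' ≤ c l)).card ≤ N := by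
            refine (card_filter_le _ _).trans ?_
            rw [Nat.card_Ico]
            omega
          exact_mod_cast this
    -- many differences
    have hHc : (N : ℝ) ≤ K' * H.card := by
      have hS0 : 0 ≤ (N : ℝ) / K := by positivity
      have e1 : (N : ℝ) ^ 2 / K ^ 2 ≤ 2 * N + 4 * (H.card * N + N * (N / K')) := by
        calc (N : ℝ) ^ 2 / K ^ 2 = (N / K) ^ 2 := by rw [div_pow]
          _ ≤ S ^ 2 := pow_le_pow_left₀ hS0 hS 2
          _ ≤ _ := hv2.trans (by linarith)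
      have e2 : (N : ℝ) / K' ≤ N / (16 * K ^ 2) := div_le_div_of_nonneg_left hN0.le (by positivity) h16
      have e3 : (N : ℝ) / K ^ 2 ≤ 2 + 4 * H.card + 4 * (N / (16 * K ^ 2)) := by
        have : (N : ℝ) * (N / K ^ 2) ≤ N * (2 + 4 * H.card + 4 * (N / (16 * K ^ 2))) := by
          calc (N : ℝ) * (N / K ^ 2) = (N : ℝ) ^ 2 / K ^ 2 := by ring
            _ ≤ 2 * N + 4 * (H.card * N + N * (N / K')) := e1
            _ ≤ 2 * N + 4 * (H.card * N + N * (N / (16 * K ^ 2))) := by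
                have := mul_le_mul_of_nonneg_left e2 hN0.le
                linarith
            _ = _ := by ring
        exact le_of_mul_le_mul_left this hN0
      have e4 : (8 : ℝ) ≤ N / K ^ 2 := by
        rw [le_div_iff₀ (by positivity)]
        have := hpw 5 (by rw [hA']; omega)
        refine le_trans ?_ this
        rw [show (5 : ℕ) = 3 + 2 from rfl, pow_add]
        apply mul_le_mul_of_nonneg_right _ (by positivity)
        calc (8 : ℝ) = 2 ^ 3 := by norm_num
          _ ≤ K ^ 3 := pow_le_pow_left₀ (by norm_num) hK 3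
      have e5 : 4 * (N / (16 * K ^ 2)) = N / K ^ 2 / 4 := by field_simp; ring
      rw [e5] at e3
      have e6 : (N : ℝ) / K ^ 2 ≤ 8 * H.card := by linarith
      rw [div_le_iff₀ (by positivity)] at e6
      have e7 : (0 : ℝ) ≤ H.card := Nat.cast_nonneg _
      calc (N : ℝ) ≤ 8 * H.card * K ^ 2 := e6
        _ = (8 * K ^ 2) * H.card := by ring
        _ ≤ K' * H.card := mul_le_mul_of_nonneg_right (by nlinarith [sq_nonneg K]) e7
    -- the induction hypothesis
    obtain ⟨ε, hε⟩ : ∃ ε : ℝ, ε = K' ^ (A + d + 1) / N ^ (d + 1) := ⟨_, rfl⟩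
    have hpwK' : ∀ m : ℕ, 6 * m ≤ A' → K' ^ m ≤ N := fun m hm => by
      rw [hK', ← pow_mul]
      exact hpw _ hm
    have hih : ∀ l ∈ H, ∃ q : ℕ, q ∈ Icc 1 ⌊K' ^ A⌋₊ ∧ NI ((l : ℝ) * ((q : ℝ) * ((d + 2) * P.coeff (d + 2)))) ε := by
      intro l hl
      rw [hH, mem_filter, mem_Ico] at hl
      obtain ⟨⟨hl1, hl2⟩, hl3⟩ := hl
      obtain ⟨hd1, hd2⟩ := Pool.Agent.H238R3.UL.diff_coeff P d hP (l : ℝ)
      have hNl : (N : ℝ) / K' ≤ ((N - l : ℕ) : ℝ) := hl3.trans (hcl l)
      have hNl0 : (0 : ℝ) < ((N - l : ℕ) : ℝ) := lt_of_lt_of_le (by positivity) hNl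
      have e2 : ∀ n ∈ range (N - l), e (P.eval ((n + l : ℕ) : ℝ)) * (starRingEnd ℂ) (e (P.eval (n : ℝ)))
          = e ((taylor (l : ℝ) P - P).eval (n : ℝ)) := by
        intro n _
        rw [conj_e, ← e_add, eval_sub, taylor_eval]
        congr 1
        push_cast; ring
      have e3 : (((N - l : ℕ) : ℝ)) / K' ≤ ‖∑ n ∈ range (N - l), e ((taylor (l : ℝ) P - P).eval (n : ℝ))‖ := by
        rw [← Finset.sum_congr rfl e2]
        rw [hc] at hl3
        simp only at hl3
        refine le_trans ?_ hl3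
        apply div_le_div_of_nonneg_right _ hK'0.le
        exact_mod_cast Nat.sub_le _ _
      obtain ⟨q, hq1, hq2, hq3⟩ := ih K' hK'2 (N - l) (by
        refine le_trans ?_ hNl
        rw [le_div_iff₀ hK'0, ← pow_succ]
        exact hpwK' _ (by rw [hA']; omega)) (taylor (l : ℝ) P - P) hd1 e3
      refine ⟨q, ?_, ?_⟩
      · rw [mem_Icc]
        exact ⟨hq1, Nat.le_floor hq2⟩
      · rw [hd2] at hq3
        have e4 : (q : ℝ) * ((d + 2) * l * P.coeff (d + 2)) = (l : ℝ) * ((q : ℝ) * ((d + 2) * P.coeff (d + 2))) := by ring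
        rw [e4] at hq3
        refine hq3.mono ?_
        rw [hε]
        rw [div_le_div_iff₀ (by positivity) (by positivity)]
        have e5 : (N : ℝ) ^ (d + 1) ≤ (K' * ((N - l : ℕ) : ℝ)) ^ (d + 1) := by
          apply pow_le_pow_left₀ hN0.le
          rw [div_le_iff₀ hK'0] at hNl
          linarith
        calc K' ^ A * (N : ℝ) ^ (d + 1) ≤ K' ^ A * (K' * ((N - l : ℕ) : ℝ)) ^ (d + 1) :=
              mul_le_mul_of_nonneg_left e5 (by positivity)
          _ = _ := by rw [mul_pow, add_assoc, pow_add]; ring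
    choose! q hq using hih
    -- the pigeonhole principle
    obtain ⟨q₀, hq₀, hF⟩ : ∃ q₀ ∈ Icc 1 ⌊K' ^ A⌋₊, (H.card : ℝ) ≤ K' ^ A * ((H.filter (fun l => q l = q₀)).card : ℝ) := by
      by_contra hcon
      push Not at hcon
      have e1 : H.card = ∑ j ∈ Icc 1 ⌊K' ^ A⌋₊, (H.filter (fun l => q l = j)).card :=
        card_eq_sum_card_fiberwise (fun l hl => (hq l hl).1)
      have hne : (Icc 1 ⌊K' ^ A⌋₊).Nonempty := by
        rw [nonempty_Icc]
        exact Nat.le_floor (by rw [Nat.cast_one]; exact one_le_pow₀ hK'1)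
      have e2 := sum_lt_sum_of_nonempty hne hcon
      rw [← mul_sum, ← Nat.cast_sum, ← e1, sum_const, Nat.card_Icc, Nat.add_sub_cancel, nsmul_eq_mul] at e2
      have e3 : (⌊K' ^ A⌋₊ : ℝ) ≤ K' ^ A := Nat.floor_le (by positivity)
      have e4 : (⌊K' ^ A⌋₊ : ℝ) * H.card ≤ K' ^ A * H.card := mul_le_mul_of_nonneg_right e3 (Nat.cast_nonneg _)
      linarith
    obtain ⟨F, hFd⟩ : ∃ F, F = H.filter (fun l => q l = q₀) := ⟨_, rfl⟩
    rw [← hFd] at hF
    rw [mem_Icc] at hq₀
    have hq₀2 : (q₀ : ℝ) ≤ K' ^ A := (by exact_mod_cast hq₀.2 : (q₀ : ℝ) ≤ (⌊K' ^ A⌋₊ : ℝ)).trans (Nat.floor_le (by positivity))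
    have hFN : (N : ℝ) ≤ K' ^ (A + 1) * F.card := by
      calc (N : ℝ) ≤ K' * H.card := hHc
        _ ≤ K' * (K' ^ A * F.card) := mul_le_mul_of_nonneg_left hF hK'0.le
        _ = _ := by rw [pow_succ]; ring
    have hKK : (1 : ℝ) ≤ K' ^ (A + 1) := one_le_pow₀ hK'1
    have h3 := recur (K' ^ (A + 1)) hKK N F (by
        rw [hFd]; exact (filter_subset _ _).trans hHsub) hFN ((q₀ : ℝ) * ((d + 2) * P.coeff (d + 2))) ε (by
        intro l hl
        rw [hFd, mem_filter] at hl
        have := (hq l hl.1).2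
        rw [hl.2] at this
        exact this) (by
        calc 8 * K' ^ (A + 1) ≤ K' ^ 3 * K' ^ (A + 1) := by
              apply mul_le_mul_of_nonneg_right _ (by positivity)
              exact_mod_cast two_pow_le hK'2 8 3 (by norm_num)
          _ = K' ^ (A + 4) := by rw [← pow_add]; congr 1; omega
          _ ≤ N := hpwK' _ (by rw [hA']; omega)) (by rw [hε]; positivity) (by
        rw [hε]
        have e1 : (N : ℝ) ≤ N ^ (d + 1) := le_self_pow₀ hN1 (by omega)
        rw [mul_div_assoc', div_lt_one (by positivity)]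
        refine lt_of_lt_of_le ?_ e1
        calc 320 * (K' ^ (A + 1)) ^ 2 * K' ^ (A + d + 1) ≤ K' ^ 9 * (K' ^ (A + 1)) ^ 2 * K' ^ (A + d + 1) := by
              apply mul_le_mul_of_nonneg_right _ (by positivity)
              apply mul_le_mul_of_nonneg_right _ (by positivity)
              exact_mod_cast two_pow_le hK'2 320 9 (by norm_num)
          _ = K' ^ (3 * A + d + 12) := by rw [← pow_mul, ← pow_add, ← pow_add]; congr 1; ring
          _ < K' ^ (3 * A + d + 13) := pow_lt_pow_right₀ (by linarith) (by omega)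
          _ ≤ N := hpwK' _ (by rw [hA']; omega))
    obtain ⟨q₁, g1, g2, g3⟩ := h3
    refine ⟨q₁ * q₀ * (d + 2), ?_, ?_, ?_⟩
    · have : 0 < q₁ * q₀ * (d + 2) := by
        have := hq₀.1
        positivity
      omega
    · push_cast
      have e1 : ((d : ℝ) + 2) ≤ K ^ (d + 2) := by
        have := two_pow_le hK (d + 2) (d + 2) (Nat.lt_two_pow_self).le
        push_cast at this
        exact this
      calc (q₁ : ℝ) * q₀ * (d + 2) ≤ (5 * K' ^ (A + 1)) * K' ^ A * K ^ (d + 2) := by gcongr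
        _ ≤ (K' ^ 3 * K' ^ (A + 1)) * K' ^ A * K ^ (d + 2) := by
            gcongr
            exact_mod_cast two_pow_le hK'2 5 3 (by norm_num)
        _ = K ^ (6 * (2 * A + 4) + d + 2) := by
            rw [hK']
            simp only [← pow_mul, ← pow_add]
            congr 1
            ring
        _ ≤ K ^ A' := pow_le_pow_right₀ hK1 (by rw [hA']; omega)
    · have e1 : ((q₁ * q₀ * (d + 2) : ℕ) : ℝ) * P.coeff (d + 1 + 1) = q₁ * ((q₀ : ℝ) * ((d + 2) * P.coeff (d + 2))) := by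
        push_cast; ring
      rw [e1]
      refine g3.mono ?_
      rw [hε]
      have e2 : 40 * (K' ^ (A + 1)) ^ 2 * (K' ^ (A + d + 1) / (N : ℝ) ^ (d + 1)) / N =
          40 * (K' ^ (A + 1)) ^ 2 * K' ^ (A + d + 1) / (N : ℝ) ^ (d + 1 + 1) := by
        rw [pow_succ (N : ℝ) (d + 1)]
        field_simp
      rw [e2]
      apply div_le_div_of_nonneg_right _ (by positivity)
      calc 40 * (K' ^ (A + 1)) ^ 2 * K' ^ (A + d + 1) ≤ K' ^ 6 * (K' ^ (A + 1)) ^ 2 * K' ^ (A + d + 1) := by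
            gcongr
            exact_mod_cast two_pow_le hK'2 40 6 (by norm_num)
        _ = K ^ (6 * (3 * A + d + 9)) := by
            rw [hK']
            simp only [← pow_mul, ← pow_add]
            congr 1
            ring
        _ ≤ K ^ A' := pow_le_pow_right₀ hK1 (by rw [hA']; omega)

end Pool.Agent.J4.H66.RP
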