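import Pool.Agent.J4.H66.RP.Anti
import Pool.Agent.J4.H66.RP.Weyl
import Pool.Agent.J4.H66.RP.Round
import Pool.Agent.N193.PS.Law
import Pool.Agent.N469.SQ.Gold

set_option autoImplicit false

/-! The law of a randomly rounded value of a real polynomial. -/

namespace Pool.Agent.J4.H66.RP
open Finset Polynomial Filter
open Pool.Agent.H469R2.NK (e norm_e e_add conj_e e_zero)
open Pool.Agent.H807R2.Dav (ee norm_ee ee_add)
open Pool.Agent.N193.PS (ee_eq_e)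
open Pool.Agent.N469.SM (FL)

/-- the probabilities of the rounded values -/
noncomputable def pr (f : ℕ → ℝ) (N : ℕ) (ω : ℕ × ℕ) : ℝ :=
  (if ω.2 = 0 then 1 - Int.fract (f ω.1) else Int.fract (f ω.1)) / N

/-- the rounded values -/
noncomputable def Yv (f : ℕ → ℝ) (j : ℤ) (ω : ℕ × ℕ) : ℤ := ⌊f ω.1⌋ + ω.2 + j

lemma pr_nonneg (f : ℕ → ℝ) (N : ℕ) (ω : ℕ × ℕ) : 0 ≤ pr f N ω := by
  unfold pr
  apply div_nonneg _ (Nat.cast_nonneg _)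
  have h0 := Int.fract_nonneg (f ω.1)
  have h1 := Int.fract_lt_one (f ω.1)
  split_ifs <;> linarith

lemma pr_two (f : ℕ → ℝ) (N n : ℕ) : pr f N (n, 0) + pr f N (n, 1) = 1 / N := by
  unfold pr
  simp only [if_true, one_ne_zero, if_false]
  rw [← add_div]
  congr 1
  ring

lemma pr_sum (f : ℕ → ℝ) (N : ℕ) (hN : 1 ≤ N) : ∑ ω ∈ range N ×ˢ range 2, pr f N ω = 1 := by
  have hN0 : (N : ℝ) ≠ 0 := by
    have : N ≠ 0 := by omega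
    exact_mod_cast this
  rw [sum_product]
  simp only [sum_range_succ, sum_range_zero, zero_add]
  rw [sum_congr rfl (fun n _ => pr_two f N n), sum_const, card_range, nsmul_eq_mul]
  field_simp

lemma char_eq (f : ℕ → ℝ) (N : ℕ) (j : ℤ) (θ : ℝ) :
    ∑ ω ∈ range N ×ˢ range 2, ((pr f N ω : ℝ) : ℂ) * ee ((Yv f j ω : ℝ) * θ) =
      e (j * θ) * ((1 / (N : ℂ)) * ∑ n ∈ range N, rnd θ (f n)) := by
  rw [sum_product, mul_sum, mul_sum]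
  refine sum_congr rfl fun n _ => ?_
  rw [sum_range_succ, sum_range_succ, sum_range_zero, zero_add]
  have h1 : ee ((Yv f j (n, 0) : ℝ) * θ) = e (j * θ) * e (θ * ⌊f n⌋) := by
    rw [ee_eq_e, ← e_add]
    congr 1
    unfold Yv
    push_cast
    ring
  have h2 : ee ((Yv f j (n, 1) : ℝ) * θ) = e (j * θ) * e (θ * (⌊f n⌋ + 1)) := by
    rw [ee_eq_e, ← e_add]
    congr 1
    unfold Yv
    push_cast
    ring
  rw [h1, h2]
  unfold pr rnd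
  simp only [if_true, one_ne_zero, if_false]
  push_cast
  ring

/-- the admissible polynomials -/
structure Adm (d B : ℕ) (δ : ℝ) (x : ℕ) (P : ℝ[X]) : Prop where
  deg : P.natDegree ≤ d + 1
  size : ∀ n ≤ x, |P.eval (n : ℝ)| ≤ Real.log x ^ B * (|P.coeff (d + 1)| * (x : ℝ) ^ (d + 1))
  low : (x : ℝ) ^ δ ≤ |P.coeff (d + 1)| * (x : ℝ) ^ (d + 1)
  up : |P.coeff (d + 1)| ≤ Real.log x ^ B

/-- powers of `log x` are small -/
lemma log_small (k : ℕ) (δ : ℝ) (hδ : 0 < δ) : ∀ᶠ x : ℕ in atTop, Real.log x ^ k ≤ (x : ℝ) ^ δ := by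
  have h1 := isLittleO_log_rpow_rpow_atTop (k : ℝ) hδ
  have h2 := h1.bound (show (0 : ℝ) < 1 by norm_num)
  have h3 := (tendsto_natCast_atTop_atTop (R := ℝ)).eventually (h2.and (eventually_ge_atTop (1 : ℝ)))
  filter_upwards [h3] with x hx
  obtain ⟨h4, h5⟩ := hx
  have h6 := Real.log_nonneg h5
  rw [Real.norm_of_nonneg (by positivity), Real.norm_of_nonneg (by positivity), one_mul, Real.rpow_natCast] at h4
  exact h4

lemma log_large (c : ℝ) : ∀ᶠ x : ℕ in atTop, c ≤ Real.log x :=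
  (Real.tendsto_log_atTop.comp (tendsto_natCast_atTop_atTop (R := ℝ))).eventually_ge_atTop c

/-- the sizes of the logarithms -/
lemma sizes (d B : ℕ) (δ : ℝ) (hδ : 0 < δ) : ∀ᶠ x : ℕ in atTop, ∀ P : ℝ[X], Adm d B δ x P → ∀ X : ℕ,
    2 * (Real.log x ^ B * (|P.coeff (d + 1)| * (x : ℝ) ^ (d + 1))) ≤ X →
    X ≤ 3 * (Real.log x ^ B * (|P.coeff (d + 1)| * (x : ℝ) ^ (d + 1))) →
    x ≤ X ^ (⌈1 / δ⌉₊ + 1) ∧ Real.log x ≤ Real.log X ^ 2 ∧ Real.log X ≤ Real.log x ^ 2 := by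
  filter_upwards [log_large 3, log_large (1 / δ ^ 2), log_large (d + 2), log_small (2 * B + 1) 1 one_pos,
    eventually_ge_atTop 3] with x h1 h2 h3 h4 h5 P hP X hX1 hX2
  obtain ⟨ℓ, hℓ⟩ : ∃ ℓ, ℓ = Real.log x := ⟨_, rfl⟩
  rw [← hℓ] at h1 h2 h3 h4 hX1 hX2 ⊢
  obtain ⟨A, hA⟩ : ∃ A, A = |P.coeff (d + 1)| * (x : ℝ) ^ (d + 1) := ⟨_, rfl⟩
  have hlow := hP.low
  have hup := hP.up
  rw [← hA] at hX1 hX2 hlow
  rw [← hℓ] at hup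
  have hx0 : (0 : ℝ) < x := by exact_mod_cast (by omega : 0 < x)
  have hx1 : (1 : ℝ) ≤ x := by exact_mod_cast (by omega : 1 ≤ x)
  have hℓB : 1 ≤ ℓ ^ B := one_le_pow₀ (by linarith)
  have hxδ1 : 1 ≤ (x : ℝ) ^ δ := Real.one_le_rpow hx1 hδ.le
  have hA1 : 1 ≤ A := hxδ1.trans hlow
  have hXδ : (x : ℝ) ^ δ ≤ X := by nlinarith
  have hX0 : (0 : ℝ) < X := by linarith
  have hlogδ : δ * ℓ ≤ Real.log X := by
    rw [hℓ, ← Real.log_rpow hx0]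
    exact Real.log_le_log (by positivity) hXδ
  have hXx : (X : ℝ) ≤ (x : ℝ) ^ (d + 2) := by
    have e1 : A ≤ ℓ ^ B * (x : ℝ) ^ (d + 1) := by
      rw [hA]; exact mul_le_mul_of_nonneg_right hup (by positivity)
    calc (X : ℝ) ≤ 3 * (ℓ ^ B * A) := hX2
      _ ≤ ℓ * (ℓ ^ B * (ℓ ^ B * (x : ℝ) ^ (d + 1))) := by gcongr
      _ = ℓ ^ (2 * B + 1) * (x : ℝ) ^ (d + 1) := by ring
      _ ≤ x * (x : ℝ) ^ (d + 1) := by
          rw [Real.rpow_one] at h4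
          exact mul_le_mul_of_nonneg_right h4 (by positivity)
      _ = _ := by ring
  have hlogup : Real.log X ≤ (d + 2) * ℓ := by
    have := Real.log_le_log hX0 hXx
    rw [Real.log_pow, ← hℓ] at this
    push_cast at this
    exact this
  refine ⟨?_, ?_, ?_⟩
  · have e1 : (x : ℝ) ≤ (X : ℝ) ^ (⌈1 / δ⌉₊ + 1) := by
      have e2 : (x : ℝ) = ((x : ℝ) ^ δ) ^ (1 / δ) := by
        rw [← Real.rpow_mul hx0.le, mul_one_div_cancel hδ.ne', Real.rpow_one]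
      have hX1' : (1 : ℝ) ≤ X := hxδ1.trans hXδ
      calc (x : ℝ) = ((x : ℝ) ^ δ) ^ (1 / δ) := e2
        _ ≤ (X : ℝ) ^ (1 / δ) := Real.rpow_le_rpow (by positivity) hXδ (by positivity)
        _ ≤ (X : ℝ) ^ ((⌈1 / δ⌉₊ + 1 : ℕ) : ℝ) := by
            apply Real.rpow_le_rpow_of_exponent_le hX1'
            push_cast
            linarith [Nat.le_ceil (1 / δ)]
        _ = _ := Real.rpow_natCast _ _
    exact_mod_cast e1
  · have e1 : 1 ≤ δ ^ 2 * ℓ := by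
      rw [div_le_iff₀ (by positivity)] at h2
      linarith
    have e2 : 0 ≤ δ * ℓ := by positivity
    calc ℓ ≤ (δ ^ 2 * ℓ) * ℓ := by nlinarith
      _ = (δ * ℓ) ^ 2 := by ring
      _ ≤ _ := pow_le_pow_left₀ e2 hlogδ 2
  · refine hlogup.trans ?_
    rw [pow_two]
    exact mul_le_mul_of_nonneg_right h3 (by linarith)

/-- The characteristic function of a randomly rounded value is large at few frequencies only. -/
theorem law (d B : ℕ) (δ : ℝ) (hδ : 0 < δ) (V : ℕ) : ∃ C : ℕ, ∀ᶠ x : ℕ in atTop, ∀ P : ℝ[X], Adm d B δ x P →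
    ∀ j : ℤ, ∀ X : ℕ, 2 * (Real.log x ^ B * (|P.coeff (d + 1)| * (x : ℝ) ^ (d + 1))) ≤ X →
    X ≤ 3 * (Real.log x ^ B * (|P.coeff (d + 1)| * (x : ℝ) ^ (d + 1))) →
    FL X (2 * X) C V (range (x + 1) ×ˢ range 2) (pr (fun n => P.eval (n : ℝ)) (x + 1)) (Yv (fun n => P.eval (n : ℝ)) j) := by
  obtain ⟨A₀, hW⟩ := weyl_inv d
  obtain ⟨k, hk⟩ : ∃ k : ℕ, k = 8 * V + 4 := ⟨_, rfl⟩
  obtain ⟨C₁, hC₁⟩ : ∃ C₁ : ℕ, C₁ = (6 * V + 4) + k * A₀ + (k * A₀ + 6 * V + B + 6) + (k * A₀ + B) + 3 := ⟨_, rfl⟩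
  refine ⟨2 * C₁, ?_⟩
  filter_upwards [sizes d B δ hδ, log_large 65536, log_small (k * A₀) 1 one_pos, eventually_ge_atTop 3] with
    x hsz h1 h2 h5 P hP j X hX1 hX2
  obtain ⟨_, hs1, hs2⟩ := hsz P hP X hX1 hX2
  obtain ⟨ℓ, hℓ⟩ : ∃ ℓ, ℓ = Real.log x := ⟨_, rfl⟩
  rw [← hℓ] at h1 h2 hX1 hX2 hs1 hs2
  obtain ⟨L, hL⟩ : ∃ L, L = Real.log X := ⟨_, rfl⟩
  rw [← hL] at hs1 hs2
  obtain ⟨α, hα⟩ : ∃ α, α = P.coeff (d + 1) := ⟨_, rfl⟩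
  obtain ⟨A, hA⟩ : ∃ A, A = |α| * (x : ℝ) ^ (d + 1) := ⟨_, rfl⟩
  have hlow := hP.low
  have hup := hP.up
  rw [← hα, ← hA] at hX1 hX2 hlow
  rw [← hℓ, ← hα] at hup
  have hx0 : (0 : ℝ) < x := by exact_mod_cast (by omega : 0 < x)
  have hx1 : (1 : ℝ) ≤ x := by exact_mod_cast (by omega : 1 ≤ x)
  have hℓ1 : 1 ≤ ℓ := by linarith
  have hℓ2 : 2 ≤ ℓ := by linarith
  have hℓ0 : 0 < ℓ := by linarith
  have hℓB : 1 ≤ ℓ ^ B := one_le_pow₀ hℓ1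
  have hA1 : 1 ≤ A := (Real.one_le_rpow hx1 hδ.le).trans hlow
  have hA0 : 0 < A := by linarith
  have hX0 : (0 : ℝ) < X := lt_of_lt_of_le (by positivity) hX1
  have hX1' : 1 ≤ X := by exact_mod_cast hX0
  have hL0 : 0 ≤ L := by rw [hL]; exact Real.log_natCast_nonneg _
  have hLpos : 0 < L := by
    rcases hL0.lt_or_eq with h | h
    · exact h
    · rw [← h] at hs1
      norm_num at hs1
      linarith
  have hα0 : 0 < |α| := by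
    rcases (abs_nonneg α).lt_or_eq with h | h
    · exact h
    · rw [hA, ← h, zero_mul] at hA0
      exact absurd hA0 (lt_irrefl _)
  have hLV : L ^ V ≤ ℓ ^ (2 * V) := by
    rw [pow_mul]
    exact pow_le_pow_left₀ hL0 hs2 V
  -- the parameters
  obtain ⟨Q₀, hQ₀⟩ : ∃ Q₀ : ℕ, Q₀ = ⌈ℓ ^ (2 * V)⌉₊ := ⟨_, rfl⟩
  have hQ₀a : ℓ ^ (2 * V) ≤ Q₀ := by rw [hQ₀]; exact Nat.le_ceil _
  have hℓV1 : 1 ≤ ℓ ^ (2 * V) := one_le_pow₀ hℓ1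
  have hQ₀b : (Q₀ : ℝ) ≤ ℓ ^ (2 * V + 1) := by
    have e1 : (Q₀ : ℝ) < ℓ ^ (2 * V) + 1 := by rw [hQ₀]; exact Nat.ceil_lt_add_one (by positivity)
    rw [pow_succ]
    nlinarith
  have hQ₀0 : (0 : ℝ) < Q₀ := by linarith
  have hQ₀1 : 1 ≤ Q₀ := by exact_mod_cast hQ₀0
  have hQ₀3 : (Q₀ : ℝ) ^ 3 ≤ ℓ ^ (6 * V + 3) := by
    calc (Q₀ : ℝ) ^ 3 ≤ (ℓ ^ (2 * V + 1)) ^ 3 := pow_le_pow_left₀ hQ₀0.le hQ₀b 3
      _ = _ := by rw [← pow_mul]; congr 1; ring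
  obtain ⟨K, hK⟩ : ∃ K : ℝ, K = ℓ ^ k := ⟨_, rfl⟩
  have hK2 : 2 ≤ K := by
    rw [hK]
    calc (2 : ℝ) ≤ ℓ := hℓ2
      _ = ℓ ^ 1 := (pow_one _).symm
      _ ≤ ℓ ^ k := pow_le_pow_right₀ hℓ1 (by omega)
  have hK0 : 0 < K := by linarith
  have hKA : K ^ A₀ = ℓ ^ (k * A₀) := by rw [hK, ← pow_mul]
  have hKx : K ^ A₀ ≤ x := by
    rw [hKA]
    rw [Real.rpow_one] at h2
    exact h2
  obtain ⟨F, hF⟩ : ∃ F : ℕ, F = 32768 * Q₀ ^ 3 := ⟨_, rfl⟩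
  have hFr : (F : ℝ) ≤ ℓ ^ (6 * V + 4) := by
    rw [hF]
    push_cast
    calc (32768 : ℝ) * (Q₀ : ℝ) ^ 3 ≤ ℓ * ℓ ^ (6 * V + 3) := by
          apply mul_le_mul (by linarith) hQ₀3 (by positivity) hℓ0.le
      _ = _ := by rw [← pow_succ']
  obtain ⟨Q, hQ⟩ : ∃ Q : ℕ, Q = ⌊K ^ A₀⌋₊ := ⟨_, rfl⟩
  have hQr : (Q : ℝ) ≤ ℓ ^ (k * A₀) := by
    rw [hQ, ← hKA]
    exact Nat.floor_le (by positivity)
  obtain ⟨ρ, hρ⟩ : ∃ ρ : ℝ, ρ = K ^ A₀ / (x : ℝ) ^ (d + 1) := ⟨_, rfl⟩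
  have hρ0 : 0 ≤ ρ := by rw [hρ]; positivity
  have hρ1 : ρ ≤ 1 := by
    rw [hρ, div_le_one (by positivity)]
    exact hKx.trans (le_self_pow₀ hx1 (by omega))
  obtain ⟨B₁, hB₁⟩ : ∃ B₁ : ℕ, B₁ = ⌈(Q : ℝ) * ((F + 1) * |α|) + 1⌉₊ := ⟨_, rfl⟩
  have hB₁a : (Q : ℝ) * ((F + 1) * |α|) + 1 ≤ B₁ := by rw [hB₁]; exact Nat.le_ceil _
  have hB₁b : (B₁ : ℝ) ≤ ℓ ^ (k * A₀ + 6 * V + B + 6) := by
    have e1 : (B₁ : ℝ) < (Q : ℝ) * ((F + 1) * |α|) + 1 + 1 := by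
      rw [hB₁]; exact Nat.ceil_lt_add_one (by positivity)
    have e2 : (F : ℝ) + 1 ≤ ℓ ^ (6 * V + 5) := by
      have : 1 ≤ ℓ ^ (6 * V + 4) := one_le_pow₀ hℓ1
      rw [pow_succ]
      nlinarith
    have e3 : (Q : ℝ) * ((F + 1) * |α|) ≤ ℓ ^ (k * A₀ + 6 * V + B + 5) := by
      calc (Q : ℝ) * ((F + 1) * |α|) ≤ ℓ ^ (k * A₀) * (ℓ ^ (6 * V + 5) * ℓ ^ B) := by gcongr
        _ = _ := by rw [← pow_add, ← pow_add]; congr 1; ring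
    have e4 : 1 ≤ ℓ ^ (k * A₀ + 6 * V + B + 5) := one_le_pow₀ hℓ1
    have e5 : ℓ ^ (k * A₀ + 6 * V + B + 6) = ℓ ^ (k * A₀ + 6 * V + B + 5) * ℓ := pow_succ _ _
    rw [e5]
    nlinarith
  have hN0 : (0 : ℝ) < ((x + 1 : ℕ) : ℝ) := by positivity
  refine ⟨fun ω _ => pr_nonneg _ _ _, (pr_sum _ _ (by omega)).le, TT (2 * X) F Q α ρ, ?_, ?_⟩
  · -- few frequencies
    refine (card_TT (2 * X) F Q B₁ α ρ (by omega) hα0 hρ0 hρ1 hB₁a).trans ?_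
    rw [← hL]
    have e1 : 2 * ρ * ((2 * X : ℕ) : ℝ) / |α| + 1 ≤ ℓ ^ (k * A₀ + B + 1) := by
      have e2 : 2 * ρ * ((2 * X : ℕ) : ℝ) / |α| = 4 * K ^ A₀ * X / A := by
        rw [hρ, hA]
        push_cast
        field_simp
        ring
      have e3 : 4 * K ^ A₀ * X / A ≤ 12 * ℓ ^ (k * A₀ + B) := by
        rw [div_le_iff₀ hA0, hKA]
        calc 4 * ℓ ^ (k * A₀) * X ≤ 4 * ℓ ^ (k * A₀) * (3 * (ℓ ^ B * A)) :=
              mul_le_mul_of_nonneg_left hX2 (by positivity)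
          _ = _ := by rw [pow_add]; ring
      have e4 : 1 ≤ ℓ ^ (k * A₀ + B) := one_le_pow₀ hℓ1
      rw [e2, pow_succ]
      nlinarith
    have e5 : 2 * (F : ℝ) + 1 ≤ ℓ ^ (6 * V + 4) * 3 := by
      have : 1 ≤ ℓ ^ (6 * V + 4) := one_le_pow₀ hℓ1
      linarith
    have e6 : 2 * (B₁ : ℝ) + 1 ≤ ℓ ^ (k * A₀ + 6 * V + B + 6) * 3 := by
      have : 1 ≤ ℓ ^ (k * A₀ + 6 * V + B + 6) := one_le_pow₀ hℓ1
      linarith
    calc (2 * (F : ℝ) + 1) * (Q * ((2 * B₁ + 1) * (2 * ρ * ((2 * X : ℕ) : ℝ) / |α| + 1))) ≤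
        (ℓ ^ (6 * V + 4) * 3) * (ℓ ^ (k * A₀) * ((ℓ ^ (k * A₀ + 6 * V + B + 6) * 3) * ℓ ^ (k * A₀ + B + 1))) := by gcongr
      _ = 9 * ℓ ^ ((6 * V + 4) + k * A₀ + (k * A₀ + 6 * V + B + 6) + (k * A₀ + B + 1)) := by
          simp only [pow_add]; ring
      _ ≤ ℓ * ℓ ^ ((6 * V + 4) + k * A₀ + (k * A₀ + 6 * V + B + 6) + (k * A₀ + B + 1)) := by
          apply mul_le_mul_of_nonneg_right (by linarith) (by positivity)
      _ = ℓ ^ ((6 * V + 4) + k * A₀ + (k * A₀ + 6 * V + B + 6) + (k * A₀ + B + 1) + 1) := by rw [← pow_succ']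
      _ ≤ ℓ ^ C₁ := pow_le_pow_right₀ hℓ1 (by rw [hC₁]; omega)
      _ ≤ (L ^ 2) ^ C₁ := pow_le_pow_left₀ hℓ0.le hs1 _
      _ = L ^ (2 * C₁) := by rw [← pow_mul]
  · intro t ht htT
    rw [char_eq, norm_mul, norm_e, one_mul, norm_mul, ← hL]
    obtain ⟨θ, hθ⟩ : ∃ θ : ℝ, θ = (t : ℝ) / ((2 * X : ℕ) : ℝ) := ⟨_, rfl⟩
    rw [← hθ]
    have hM0 : (0 : ℝ) < ((2 * X : ℕ) : ℝ) := by push_cast; linarith
    have hθ1 : |θ| ≤ 1 := by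
      rw [hθ, abs_of_nonneg (by positivity), div_le_one hM0]
      exact_mod_cast (mem_range.1 ht).le
    have hE : ∀ m : ℤ, |m| < (32768 * Q₀ ^ 3 : ℕ) →
        ‖∑ n ∈ range (x + 1), e ((θ + m) * P.eval (n : ℝ))‖ ≤ ((x + 1 : ℕ) : ℝ) / K := by
      intro m hm
      by_contra hcon
      push Not at hcon
      have e1 : ∀ n ∈ range (x + 1), e ((θ + m) * P.eval (n : ℝ)) = e ((C (θ + m) * P).eval (n : ℝ)) := by
        intro n _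
        rw [eval_C_mul]
      rw [sum_congr rfl e1] at hcon
      obtain ⟨q, hq1, hq2, hq3⟩ := hW K hK2 (x + 1) (hKx.trans (by push_cast; linarith)) (C (θ + m) * P)
        ((natDegree_C_mul_le _ _).trans hP.deg) hcon.le
      apply htT
      rw [mem_TT]
      refine ⟨ht, m, by rw [hF]; exact hm, q, hq1, ?_, ?_⟩
      · rw [hQ]
        exact Nat.le_floor hq2
      · rw [coeff_C_mul, ← hα] at hq3
        rw [← hθ]
        refine hq3.mono ?_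
        rw [hρ]
        apply div_le_div_of_nonneg_left (by positivity) (by positivity)
        apply pow_le_pow_left₀ hx0.le
        push_cast
        linarith
    have h6 := rnd_sum (range (x + 1)) (fun n => P.eval (n : ℝ)) Q₀ hQ₀1 θ hθ1 (((x + 1 : ℕ) : ℝ) / K) hE
    rw [card_range] at h6
    have h7 : 32768 * (Q₀ : ℝ) ^ 3 * (((x + 1 : ℕ) : ℝ) / K) ≤ ((x + 1 : ℕ) : ℝ) / (2 * L ^ V) := by
      rw [mul_div_assoc', div_le_div_iff₀ hK0 (by positivity)]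
      have e1 : 65536 * (Q₀ : ℝ) ^ 3 * L ^ V ≤ K := by
        calc 65536 * (Q₀ : ℝ) ^ 3 * L ^ V ≤ ℓ * ℓ ^ (6 * V + 3) * ℓ ^ (2 * V) := by gcongr
          _ = K := by rw [hK, hk, ← pow_succ', ← pow_add]; congr 1; ring
      calc 32768 * (Q₀ : ℝ) ^ 3 * ((x + 1 : ℕ) : ℝ) * (2 * L ^ V) = ((x + 1 : ℕ) : ℝ) * (65536 * (Q₀ : ℝ) ^ 3 * L ^ V) := by ring
        _ ≤ ((x + 1 : ℕ) : ℝ) * K := mul_le_mul_of_nonneg_left e1 hN0.le
    have h8 : ((x + 1 : ℕ) : ℝ) / (2 * Q₀) ≤ ((x + 1 : ℕ) : ℝ) / (2 * L ^ V) := by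
      apply div_le_div_of_nonneg_left hN0.le (by positivity)
      linarith
    have h9 : ‖∑ n ∈ range (x + 1), rnd θ (P.eval (n : ℝ))‖ ≤ ((x + 1 : ℕ) : ℝ) / L ^ V := by
      refine h6.trans ?_
      have : ((x + 1 : ℕ) : ℝ) / L ^ V = ((x + 1 : ℕ) : ℝ) / (2 * L ^ V) + ((x + 1 : ℕ) : ℝ) / (2 * L ^ V) := by
        field_simp; ring
      rw [this]
      linarith
    rw [norm_div, norm_one, Complex.norm_natCast]
    calc 1 / ((x + 1 : ℕ) : ℝ) * ‖∑ n ∈ range (x + 1), rnd θ (P.eval (n : ℝ))‖ ≤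
        1 / ((x + 1 : ℕ) : ℝ) * (((x + 1 : ℕ) : ℝ) / L ^ V) := mul_le_mul_of_nonneg_left h9 (by positivity)
      _ = 1 / L ^ V := by field_simp

end Pool.Agent.J4.H66.RP
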