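import Pool.Agent.J4.H66.RP.Rec

set_option autoImplicit false

/-! A polynomial is small at few integers; the number of bad frequencies. -/

namespace Pool.Agent.J4.H66.RP
open Finset Polynomial

lemma emb_gap {k : ℕ} (f : Fin k → ℕ) (hf : StrictMono f) : ∀ (m : ℕ) (a b : Fin k), (b : ℕ) = a + m → f a + m ≤ f b := by
  intro m
  induction m with
  | zero =>
    intro a b h
    have : a = b := Fin.ext (by omega)
    rw [this, add_zero]
  | succ m ih =>
    intro a b h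
    have hb := b.2
    have h1 := ih a ⟨a + m, by omega⟩ rfl
    have h2 : f ⟨a + m, by omega⟩ < f b := hf (by rw [Fin.lt_def]; simp only; omega)
    omega

/-- a polynomial is small at few integers -/
lemma anti (d : ℕ) (P : ℝ[X]) (hP : P.natDegree ≤ d) (S : Finset ℕ) (J : ℕ) (hJ : 1 ≤ J) (τ : ℝ)
    (hS : ∀ n ∈ S, |P.eval (n : ℝ)| ≤ τ) (hc : d * J + 1 ≤ S.card) : |P.coeff d| * (J : ℝ) ^ d ≤ (d + 1) * τ := by
  classical
  obtain ⟨k, hk⟩ : ∃ k, k = S.card := ⟨_, rfl⟩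
  have hf := S.orderEmbOfFin hk.symm
  obtain ⟨f, hfm, hfS⟩ : ∃ f : Fin k → ℕ, StrictMono f ∧ ∀ i, f i ∈ S :=
    ⟨S.orderEmbOfFin hk.symm, (S.orderEmbOfFin hk.symm).strictMono, fun i => S.orderEmbOfFin_mem hk.symm i⟩
  have hlt : ∀ i : Fin (d + 1), (i : ℕ) * J < k := by
    intro i
    have h1 : (i : ℕ) ≤ d := by omega
    have h2 : (i : ℕ) * J ≤ d * J := Nat.mul_le_mul_right _ h1
    omega
  obtain ⟨g, hg⟩ : ∃ g : Fin (d + 1) → ℕ, g = fun i : Fin (d + 1) => f ⟨(i : ℕ) * J, hlt i⟩ := ⟨_, rfl⟩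
  have hgap : ∀ i j : Fin (d + 1), (i : ℕ) < j → g i + J ≤ g j := by
    intro i j hij
    have h1 : (i : ℕ) * J + J ≤ j * J := by
      calc (i : ℕ) * J + J = (i + 1) * J := by ring
        _ ≤ j * J := Nat.mul_le_mul_right _ hij
    have h2 := emb_gap f hfm (j * J - i * J) ⟨(i : ℕ) * J, hlt i⟩ ⟨(j : ℕ) * J, hlt j⟩ (by simp only; omega)
    rw [hg]
    simp only
    omega
  have hJ0 : (0 : ℝ) < J := by exact_mod_cast hJ
  have hdist : ∀ i j : Fin (d + 1), i ≠ j → (J : ℝ) ≤ |(g i : ℝ) - g j| := by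
    intro i j hij
    have hne : (i : ℕ) ≠ j := fun h => hij (Fin.ext h)
    rcases lt_or_gt_of_ne hne with h | h
    · have h1 := hgap i j h
      have h2 : (g i : ℝ) + J ≤ g j := by exact_mod_cast h1
      rw [abs_of_nonpos (by linarith)]
      linarith
    · have h1 := hgap j i h
      have h2 : (g j : ℝ) + J ≤ g i := by exact_mod_cast h1
      rw [abs_of_nonneg (by linarith)]
      linarith
  have hinj : Set.InjOn (fun i : Fin (d + 1) => (g i : ℝ)) (univ : Finset (Fin (d + 1))) := by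
    intro i _ j _ hij
    by_contra hne
    have h1 := hdist i j hne
    simp only at hij
    rw [hij, sub_self, abs_zero] at h1
    linarith
  have hdeg : P.degree < ((univ : Finset (Fin (d + 1))).card : ℕ) := by
    rw [card_univ, Fintype.card_fin]
    exact lt_of_le_of_lt degree_le_natDegree (by exact_mod_cast Nat.lt_succ_of_le hP)
  have hmain := Lagrange.coeff_eq_sum hinj hdeg
  rw [card_univ, Fintype.card_fin, Nat.add_sub_cancel] at hmain
  rw [hmain]
  have h1 : |∑ i : Fin (d + 1), P.eval (g i : ℝ) / ∏ j ∈ univ.erase i, ((g i : ℝ) - g j)| ≤ ∑ _i : Fin (d + 1), τ / (J : ℝ) ^ d := by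
    refine (abs_sum_le_sum_abs _ _).trans (sum_le_sum fun i _ => ?_)
    rw [abs_div, abs_prod]
    have h2 : (J : ℝ) ^ d ≤ ∏ j ∈ univ.erase i, |(g i : ℝ) - g j| := by
      have h3 : (univ.erase i).card = d := by
        rw [card_erase_of_mem (mem_univ _), card_univ, Fintype.card_fin, Nat.add_sub_cancel]
      calc (J : ℝ) ^ d = ∏ _j ∈ univ.erase i, (J : ℝ) := by rw [prod_const, h3]
        _ ≤ _ := prod_le_prod (fun _ _ => hJ0.le) (fun j hj => hdist i j (ne_of_mem_erase hj).symm)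
    have h4 : |P.eval (g i : ℝ)| ≤ τ := by
      apply hS
      rw [hg]
      exact hfS _
    exact div_le_div₀ ((abs_nonneg _).trans h4) h4 (by positivity) h2
  rw [sum_const, card_univ, Fintype.card_fin, nsmul_eq_mul] at h1
  calc |∑ i : Fin (d + 1), P.eval (g i : ℝ) / ∏ j ∈ univ.erase i, ((g i : ℝ) - g j)| * (J : ℝ) ^ d ≤
      (((d + 1 : ℕ) : ℝ) * (τ / (J : ℝ) ^ d)) * (J : ℝ) ^ d := mul_le_mul_of_nonneg_right h1 (by positivity)
    _ = (d + 1) * τ := by
        push_cast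
        field_simp

/-- the number of the integers `t` for which `a t` is close to `b` -/
lemma card_near (S : Finset ℕ) (a b w : ℝ) (ha : 0 < |a|) (hw : 0 ≤ w) (hS : ∀ t ∈ S, |a * t - b| ≤ w) :
    (S.card : ℝ) ≤ 2 * w / |a| + 1 := by
  rcases S.eq_empty_or_nonempty with h | h
  · rw [h, card_empty]
    push_cast
    positivity
  obtain ⟨m, hm⟩ : ∃ m, m = S.min' h := ⟨_, rfl⟩
  obtain ⟨n, hn⟩ : ∃ n, n = S.max' h := ⟨_, rfl⟩
  have hmS : m ∈ S := by rw [hm]; exact min'_mem _ _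
  have hnS : n ∈ S := by rw [hn]; exact max'_mem _ _
  have hsub : S ⊆ Icc m n := by
    intro x hx
    rw [mem_Icc, hm, hn]
    exact ⟨min'_le _ _ hx, le_max' _ _ hx⟩
  have hmn : m ≤ n := by rw [hn]; exact le_max' _ _ hmS
  have hcard := card_le_card hsub
  rw [Nat.card_Icc] at hcard
  have e1 : (S.card : ℝ) ≤ (n - m) + 1 := by
    have e0 : S.card ≤ (n - m) + 1 := by omega
    have : (S.card : ℝ) ≤ ((n - m : ℕ) : ℝ) + 1 := by exact_mod_cast e0
    rw [Nat.cast_sub hmn] at this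
    exact this
  have e2 : |a| * ((n : ℝ) - m) ≤ 2 * w := by
    have e3 : |a| * ((n : ℝ) - m) = |(a * n - b) - (a * m - b)| := by
      have : (0 : ℝ) ≤ (n : ℝ) - m := by
        have : (m : ℝ) ≤ n := by exact_mod_cast hmn
        linarith
      calc |a| * ((n : ℝ) - m) = |a| * |(n : ℝ) - m| := by rw [abs_of_nonneg this]
        _ = |a * ((n : ℝ) - m)| := (abs_mul _ _).symm
        _ = _ := by congr 1; ring
    rw [e3]
    refine (abs_sub _ _).trans ?_
    linarith [hS m hmS, hS n hnS]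
  have e4 : (n : ℝ) - m ≤ 2 * w / |a| := by
    rw [le_div_iff₀ ha]
    linarith
  linarith

open Classical in
/-- the bad frequencies -/
noncomputable def TT (M F Q : ℕ) (α ρ : ℝ) : Finset ℕ := (range M).filter fun t =>
  ∃ h : ℤ, |h| < F ∧ ∃ q : ℕ, 1 ≤ q ∧ q ≤ Q ∧ NI (q * (((t : ℝ) / M + h) * α)) ρ

lemma mem_TT {M F Q : ℕ} {α ρ : ℝ} {t : ℕ} : t ∈ TT M F Q α ρ ↔ t ∈ range M ∧
    ∃ h : ℤ, |h| < F ∧ ∃ q : ℕ, 1 ≤ q ∧ q ≤ Q ∧ NI (q * (((t : ℝ) / M + h) * α)) ρ := by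
  classical
  unfold TT
  rw [mem_filter]

lemma card_TT (M F Q B₁ : ℕ) (α ρ : ℝ) (hM : 1 ≤ M) (hα : 0 < |α|) (hρ0 : 0 ≤ ρ) (hρ1 : ρ ≤ 1)
    (hB : (Q : ℝ) * ((F + 1) * |α|) + 1 ≤ B₁) :
    ((TT M F Q α ρ).card : ℝ) ≤ (2 * F + 1) * (Q * ((2 * B₁ + 1) * (2 * ρ * M / |α| + 1))) := by
  classical
  have hM0 : (0 : ℝ) < M := by exact_mod_cast hM
  obtain ⟨R, hR⟩ : ∃ R : ℤ → ℕ → ℤ → Finset ℕ, R = fun (h : ℤ) (q : ℕ) (m : ℤ) =>
    (range M).filter fun t : ℕ => |((q : ℝ) * (((t : ℝ) / M + h) * α)) - m| ≤ ρ := ⟨_, rfl⟩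
  have hsub : TT M F Q α ρ ⊆ (Icc (-(F : ℤ)) F).biUnion fun h => (Icc 1 Q).biUnion fun q =>
      (Icc (-(B₁ : ℤ)) B₁).biUnion fun m => R h q m := by
    intro t ht
    unfold TT at ht
    rw [mem_filter] at ht
    obtain ⟨htM, h, hh, q, hq1, hq2, m, hm⟩ := ht
    rw [mem_biUnion]
    have hh' := abs_lt.1 hh
    refine ⟨h, mem_Icc.2 ⟨by omega, by omega⟩, ?_⟩
    rw [mem_biUnion]
    refine ⟨q, mem_Icc.2 ⟨hq1, hq2⟩, ?_⟩
    rw [mem_biUnion]
    refine ⟨m, ?_, ?_⟩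
    · have htM' : (t : ℝ) / M ≤ 1 := by
        rw [div_le_one hM0]
        exact_mod_cast (mem_range.1 htM).le
      have ht0 : (0 : ℝ) ≤ (t : ℝ) / M := by positivity
      have hhr : |(h : ℝ)| ≤ F := by
        have : |h| ≤ F := hh.le
        exact_mod_cast this
      have e1 : |(q : ℝ) * (((t : ℝ) / M + h) * α)| ≤ Q * ((F + 1) * |α|) := by
        rw [abs_mul, abs_mul, abs_of_nonneg (Nat.cast_nonneg q)]
        apply mul_le_mul (by exact_mod_cast hq2) _ (by positivity) (Nat.cast_nonneg _)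
        apply mul_le_mul_of_nonneg_right _ hα.le
        refine (abs_add_le _ _).trans ?_
        rw [abs_of_nonneg ht0]
        linarith
      have e2 : |(m : ℝ)| ≤ B₁ := by
        have e3 : (m : ℝ) = (q : ℝ) * (((t : ℝ) / M + h) * α) - ((q : ℝ) * (((t : ℝ) / M + h) * α) - m) := by ring
        rw [e3]
        refine (abs_sub _ _).trans ?_
        linarith
      have e3 : |m| ≤ (B₁ : ℤ) := by exact_mod_cast e2
      rw [mem_Icc]
      exact abs_le.1 e3
    · rw [hR]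
      exact mem_filter.2 ⟨htM, hm⟩
  have hRc : ∀ h : ℤ, ∀ q ∈ Icc 1 Q, ∀ m : ℤ, ((R h q m).card : ℝ) ≤ 2 * ρ * M / |α| + 1 := by
    intro h q hq m
    rw [mem_Icc] at hq
    have hq1 : (1 : ℝ) ≤ q := by exact_mod_cast hq.1
    have ha : |(q : ℝ) * α / M| = q * |α| / M := by
      rw [abs_div, abs_mul, abs_of_nonneg (by linarith : (0 : ℝ) ≤ q), abs_of_pos hM0]
    have ha0 : 0 < |(q : ℝ) * α / M| := by rw [ha]; positivity
    have h1 := card_near (R h q m) (q * α / M) (m - q * (h * α)) ρ ha0 hρ0 (by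
      intro t ht
      rw [hR, mem_filter] at ht
      have e1 : (q : ℝ) * α / M * t - (m - q * (h * α)) = q * (((t : ℝ) / M + h) * α) - m := by
        field_simp
        ring
      rw [e1]
      exact ht.2)
    refine h1.trans ?_
    rw [ha]
    have e2 : 2 * ρ / (q * |α| / M) = 2 * ρ * M / (q * |α|) := by field_simp
    rw [e2]
    have e3 : 2 * ρ * M / (q * |α|) ≤ 2 * ρ * M / |α| := by
      apply div_le_div_of_nonneg_left (by positivity) hα
      nlinarith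
    linarith
  have hD : 0 ≤ 2 * ρ * M / |α| + 1 := by positivity
  calc ((TT M F Q α ρ).card : ℝ) ≤ (((Icc (-(F : ℤ)) F).biUnion fun h => (Icc 1 Q).biUnion fun q =>
      (Icc (-(B₁ : ℤ)) B₁).biUnion fun m => R h q m).card : ℝ) := by exact_mod_cast card_le_card hsub
    _ ≤ ∑ h ∈ Icc (-(F : ℤ)) F, ∑ q ∈ Icc 1 Q, ∑ m ∈ Icc (-(B₁ : ℤ)) B₁, ((R h q m).card : ℝ) := by
        have : ((Icc (-(F : ℤ)) F).biUnion fun h => (Icc 1 Q).biUnion fun q =>
          (Icc (-(B₁ : ℤ)) B₁).biUnion fun m => R h q m).card ≤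
          ∑ h ∈ Icc (-(F : ℤ)) F, ∑ q ∈ Icc 1 Q, ∑ m ∈ Icc (-(B₁ : ℤ)) B₁, (R h q m).card := by
          refine card_biUnion_le.trans (sum_le_sum fun h _ => ?_)
          refine card_biUnion_le.trans (sum_le_sum fun q _ => ?_)
          exact card_biUnion_le
        exact_mod_cast this
    _ ≤ ∑ h ∈ Icc (-(F : ℤ)) F, ∑ q ∈ Icc 1 Q, ∑ m ∈ Icc (-(B₁ : ℤ)) B₁, (2 * ρ * M / |α| + 1) :=
        sum_le_sum fun h _ => sum_le_sum fun q hq => sum_le_sum fun m _ => hRc h q hq m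
    _ = _ := by
        simp only [sum_const, Int.card_Icc, Nat.card_Icc, nsmul_eq_mul, Nat.add_sub_cancel]
        have e1 : (((F : ℤ) + 1 - -(F : ℤ)).toNat : ℝ) = 2 * F + 1 := by
          have : ((F : ℤ) + 1 - -(F : ℤ)).toNat = 2 * F + 1 := by omega
          rw [this]; push_cast; ring
        have e2 : (((B₁ : ℤ) + 1 - -(B₁ : ℤ)).toNat : ℝ) = 2 * B₁ + 1 := by
          have : ((B₁ : ℤ) + 1 - -(B₁ : ℤ)).toNat = 2 * B₁ + 1 := by omega
          rw [this]; push_cast; ring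
        rw [e1, e2]

end Pool.Agent.J4.H66.RP
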