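import Pool.Agent.J4.H66.RP.Law

set_option autoImplicit false

/-! Goldbach's conjecture near the values of real polynomials. -/

namespace Pool.Agent.J4.H66.RP
open Finset Polynomial Filter
open Pool.Agent.N469.SM (FL)

/-- the statement for `n` -/
def GG (ε : ℝ) (n : ℕ) : Prop :=
  |(Pool.Agent.H560R3.GB.g n : ℝ) - Pool.Agent.H560R3.GB.HL n| ≤ ε * Pool.Agent.H560R3.GB.HL n ∧
    ∃ p q : ℕ, p.Prime ∧ q.Prime ∧ p ≠ q ∧ p + q = n

/-- the polynomial is small at few integers -/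
lemma anti_poly (d B : ℕ) (δ : ℝ) (hδ : 0 < δ) (u : ℕ) : ∃ W' : ℕ, ∀ᶠ x : ℕ in atTop, ∀ P : ℝ[X], Adm d B δ x P →
    ∀ X : ℕ, 2 * (Real.log x ^ B * (|P.coeff (d + 1)| * (x : ℝ) ^ (d + 1))) ≤ X →
    X ≤ 3 * (Real.log x ^ B * (|P.coeff (d + 1)| * (x : ℝ) ^ (d + 1))) →
    ∀ S : Finset ℕ, (∀ n ∈ S, |P.eval (n : ℝ)| ≤ 2 * (X / Real.log X ^ (W' + 1))) →
    (S.card : ℝ) ≤ x / Real.log x ^ u := by
  obtain ⟨W', hW'⟩ : ∃ W' : ℕ, W' = 2 * (B + (u + 1) * (d + 1) + 2) := ⟨_, rfl⟩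
  refine ⟨W', ?_⟩
  filter_upwards [sizes d B δ hδ, log_large ((6 * (d + 2) * 2 ^ (d + 1) : ℕ) : ℝ), log_small (u + 2) 1 one_pos,
    log_large (d + 2), eventually_ge_atTop 3] with x hsz h1 h2 h4 h5 P hP X hX1 hX2 S hS
  obtain ⟨_, hs1, hs2⟩ := hsz P hP X hX1 hX2
  obtain ⟨ℓ, hℓ⟩ : ∃ ℓ, ℓ = Real.log x := ⟨_, rfl⟩
  rw [← hℓ] at h1 h2 h4 hX1 hX2 hs1 hs2 ⊢
  obtain ⟨L, hL⟩ : ∃ L, L = Real.log X := ⟨_, rfl⟩
  rw [← hL] at hs1 hs2 hS
  obtain ⟨α, hα⟩ : ∃ α, α = P.coeff (d + 1) := ⟨_, rfl⟩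
  rw [← hα] at hX1 hX2
  have hlow := hP.low
  rw [← hα] at hlow
  have hx0 : (0 : ℝ) < x := by exact_mod_cast (by omega : 0 < x)
  have hx1 : (1 : ℝ) ≤ x := by exact_mod_cast (by omega : 1 ≤ x)
  have hℓ2 : 2 ≤ ℓ := by
    have : (0 : ℝ) ≤ d := Nat.cast_nonneg _
    linarith
  have hℓ1 : 1 ≤ ℓ := by linarith
  have hℓ0 : 0 < ℓ := by linarith
  have hL0 : 0 ≤ L := by rw [hL]; exact Real.log_natCast_nonneg _
  have hLpos : 0 < L := by
    rcases hL0.lt_or_eq with h | h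
    · exact h
    · rw [← h] at hs1
      norm_num at hs1
      linarith
  have hA1 : 1 ≤ |α| * (x : ℝ) ^ (d + 1) := (Real.one_le_rpow hx1 hδ.le).trans hlow
  have hα0 : 0 < |α| := by
    rcases (abs_nonneg α).lt_or_eq with h | h
    · exact h
    · rw [← h, zero_mul] at hA1
      exact absurd hA1 (by norm_num)
  obtain ⟨J, hJ⟩ : ∃ J : ℕ, J = ⌊(x : ℝ) / ℓ ^ (u + 1)⌋₊ := ⟨_, rfl⟩
  have hxu : 2 ≤ (x : ℝ) / ℓ ^ (u + 1) := by
    rw [le_div_iff₀ (by positivity)]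
    rw [Real.rpow_one] at h2
    refine le_trans ?_ h2
    rw [pow_succ ℓ (u + 1), mul_comm]
    exact mul_le_mul_of_nonneg_left hℓ2 (by positivity)
  have hJ1 : (x : ℝ) / ℓ ^ (u + 1) < J + 1 := by rw [hJ]; exact Nat.lt_floor_add_one _
  have hJ2 : (J : ℝ) ≤ (x : ℝ) / ℓ ^ (u + 1) := by rw [hJ]; exact Nat.floor_le (by positivity)
  have hJ3 : (x : ℝ) / (2 * ℓ ^ (u + 1)) ≤ J := by
    have : (x : ℝ) / (2 * ℓ ^ (u + 1)) = (x / ℓ ^ (u + 1)) / 2 := by field_simp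
    rw [this]
    linarith
  have hJ0 : (1 : ℝ) ≤ J := by linarith
  have hJ4 : 1 ≤ J := by exact_mod_cast hJ0
  have hcard : S.card ≤ (d + 1) * J := by
    by_contra hcon
    push Not at hcon
    have h3 := anti (d + 1) P hP.deg S J hJ4 (2 * (X / L ^ (W' + 1))) hS hcon
    rw [← hα] at h3
    have e1 : |α| * ((x : ℝ) / (2 * ℓ ^ (u + 1))) ^ (d + 1) ≤ |α| * (J : ℝ) ^ (d + 1) := by
      apply mul_le_mul_of_nonneg_left _ hα0.le
      exact pow_le_pow_left₀ (by positivity) hJ3 _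
    have e2 : (((d + 1 : ℕ) : ℝ) + 1) * (2 * (X / L ^ (W' + 1))) ≤ (d + 2) * (2 * (3 * (ℓ ^ B * (|α| * (x : ℝ) ^ (d + 1))) / L ^ (W' + 1))) := by
      have e3 : (((d + 1 : ℕ) : ℝ) + 1) = d + 2 := by push_cast; ring
      rw [e3]
      gcongr
    have e3 := (e1.trans h3).trans e2
    have e4 : |α| * ((x : ℝ) / (2 * ℓ ^ (u + 1))) ^ (d + 1) = (|α| * (x : ℝ) ^ (d + 1)) * (1 / (2 ^ (d + 1) * ℓ ^ ((u + 1) * (d + 1)))) := by
      rw [div_pow, mul_pow, ← pow_mul]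
      ring
    have e5 : (d + 2) * (2 * (3 * (ℓ ^ B * (|α| * (x : ℝ) ^ (d + 1))) / L ^ (W' + 1))) =
        (|α| * (x : ℝ) ^ (d + 1)) * (6 * (d + 2) * ℓ ^ B / L ^ (W' + 1)) := by ring
    rw [e4, e5] at e3
    have e6 : 1 / (2 ^ (d + 1) * ℓ ^ ((u + 1) * (d + 1))) ≤ 6 * (d + 2) * ℓ ^ B / L ^ (W' + 1) :=
      le_of_mul_le_mul_left e3 (by positivity)
    rw [div_le_div_iff₀ (by positivity) (by positivity), one_mul] at e6
    have e7 : ℓ ^ (B + (u + 1) * (d + 1) + 2) ≤ L ^ W' := by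
      rw [hW', pow_mul]
      exact pow_le_pow_left₀ hℓ0.le hs1 _
    have hL1 : 1 ≤ L := by
      by_contra hcon2
      push Not at hcon2
      nlinarith
    have e8 : L ^ W' ≤ L ^ (W' + 1) := pow_le_pow_right₀ hL1 (by omega)
    have e9 : 6 * (d + 2) * ℓ ^ B * (2 ^ (d + 1) * ℓ ^ ((u + 1) * (d + 1))) ≤ ℓ ^ (B + (u + 1) * (d + 1) + 1) := by
      calc 6 * (d + 2) * ℓ ^ B * (2 ^ (d + 1) * ℓ ^ ((u + 1) * (d + 1))) =
          ((6 * (d + 2) * 2 ^ (d + 1) : ℕ) : ℝ) * (ℓ ^ B * ℓ ^ ((u + 1) * (d + 1))) := by push_cast; ring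
        _ ≤ ℓ * (ℓ ^ B * ℓ ^ ((u + 1) * (d + 1))) := mul_le_mul_of_nonneg_right h1 (by positivity)
        _ = _ := by rw [pow_succ, pow_add]; ring
    have e10 : ℓ ^ (B + (u + 1) * (d + 1) + 1) < ℓ ^ (B + (u + 1) * (d + 1) + 2) :=
      pow_lt_pow_right₀ (by linarith) (by omega)
    linarith
  calc (S.card : ℝ) ≤ (((d + 1) * J : ℕ) : ℝ) := by exact_mod_cast hcard
    _ = (d + 1) * J := by push_cast; ring
    _ ≤ ℓ * (x / ℓ ^ (u + 1)) := mul_le_mul (by linarith) hJ2 (by linarith) hℓ0.le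
    _ = x / ℓ ^ u := by rw [pow_succ]; field_simp

open Classical in
/-- few `n` are exceptional -/
theorem main (d B U W : ℕ) (δ ε : ℝ) (hδ : 0 < δ) (hε : 0 < ε) : ∀ᶠ x : ℕ in atTop, ∀ P : ℝ[X], Adm d B δ x P →
    (((range (x + 1)).filter fun n : ℕ => ∃ m : ℤ, 0 < m ∧ Even m ∧ |(m : ℝ) - P.eval (n : ℝ)| ≤ Real.log x ^ W ∧
      ¬ GG ε m.toNat).card : ℝ) ≤ x / Real.log x ^ U := by
  obtain ⟨U', hU'⟩ : ∃ U' : ℕ, U' = 2 * (U + W + 5) := ⟨_, rfl⟩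
  obtain ⟨W', hanti⟩ := anti_poly d B δ hδ (2 * (U' + 1) + 1)
  obtain ⟨V, hV⟩ : ∃ V : ℕ, V = U' + (2 * W' + 6) + 1 + 6 := ⟨_, rfl⟩
  obtain ⟨C, hlaw⟩ := law d B δ hδ V
  obtain ⟨X₀, hgold⟩ := Pool.Agent.N469.SQ.fl_gold U' W' C ε hε
  filter_upwards [sizes d B δ hδ, hanti, hlaw, log_large 10, log_small (W + 1) δ hδ,
    log_small (W + 1 + 2 * (W' + 1)) δ hδ, eventually_ge_atTop (3 + X₀ ^ (⌈1 / δ⌉₊ + 1))] with x hsz hanti hlaw h1 h2 h3 h5 P hP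
  obtain ⟨ℓ, hℓ⟩ : ∃ ℓ, ℓ = Real.log x := ⟨_, rfl⟩
  obtain ⟨α, hα⟩ : ∃ α, α = P.coeff (d + 1) := ⟨_, rfl⟩
  obtain ⟨A, hA⟩ : ∃ A, A = |α| * (x : ℝ) ^ (d + 1) := ⟨_, rfl⟩
  obtain ⟨X, hX⟩ : ∃ X : ℕ, X = ⌈2 * (ℓ ^ B * A)⌉₊ := ⟨_, rfl⟩
  have hlow := hP.low
  have hsize := hP.size
  rw [← hα, ← hA] at hlow
  rw [← hℓ, ← hα, ← hA] at hsize
  have hx0 : (0 : ℝ) < x := by exact_mod_cast (by omega : 0 < x)
  have hx1 : (1 : ℝ) ≤ x := by exact_mod_cast (by omega : 1 ≤ x)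
  rw [← hℓ] at h1 h2 h3
  have hℓ1 : 1 ≤ ℓ := by linarith
  have hℓ0 : 0 < ℓ := by linarith
  have hℓB : 1 ≤ ℓ ^ B := one_le_pow₀ hℓ1
  have hA1 : 1 ≤ A := (Real.one_le_rpow hx1 hδ.le).trans hlow
  have hA0 : 0 < A := by linarith
  have hBA : A ≤ ℓ ^ B * A := le_mul_of_one_le_left hA0.le hℓB
  have hX1 : 2 * (ℓ ^ B * A) ≤ X := by rw [hX]; exact Nat.le_ceil _
  have hX2 : (X : ℝ) ≤ 3 * (ℓ ^ B * A) := by
    have : (X : ℝ) < 2 * (ℓ ^ B * A) + 1 := by rw [hX]; exact Nat.ceil_lt_add_one (by positivity)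
    linarith
  obtain ⟨hs0, hs1, hs2⟩ := hsz P hP X (by rw [← hℓ, ← hα, ← hA]; exact hX1) (by rw [← hℓ, ← hα, ← hA]; exact hX2)
  have hanti' := hanti P hP X (by rw [← hℓ, ← hα, ← hA]; exact hX1) (by rw [← hℓ, ← hα, ← hA]; exact hX2)
  have hlaw' := fun j => hlaw P hP j X (by rw [← hℓ, ← hα, ← hA]; exact hX1) (by rw [← hℓ, ← hα, ← hA]; exact hX2)
  rw [← hℓ] at hs1 hs2 hanti' ⊢
  obtain ⟨L, hL⟩ : ∃ L, L = Real.log X := ⟨_, rfl⟩
  rw [← hL] at hs1 hs2 hanti'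
  have hL0 : 0 ≤ L := by rw [hL]; exact Real.log_natCast_nonneg _
  have hLpos : 0 < L := by
    rcases hL0.lt_or_eq with h | h
    · exact h
    · rw [← h] at hs1
      norm_num at hs1
      linarith
  have hXX₀ : X₀ ≤ X := by
    by_contra hcon
    push Not at hcon
    have : X ^ (⌈1 / δ⌉₊ + 1) ≤ X₀ ^ (⌈1 / δ⌉₊ + 1) := Nat.pow_le_pow_left hcon.le _
    omega
  have hX0 : (0 : ℝ) < X := by linarith
  obtain ⟨N, hN⟩ : ∃ N : ℕ, N = x + 1 := ⟨_, rfl⟩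
  obtain ⟨f, hf⟩ : ∃ f : ℕ → ℝ, f = fun n : ℕ => P.eval (n : ℝ) := ⟨_, rfl⟩
  rw [← hN, ← hf] at hlaw'
  rw [← hN]
  have hNr : (N : ℝ) = x + 1 := by rw [hN]; push_cast; ring
  have hN0 : (0 : ℝ) < N := by rw [hNr]; linarith
  have hfe : ∀ n : ℕ, P.eval (n : ℝ) = f n := fun n => by rw [hf]
  simp only [hfe] at hsize hanti' ⊢
  obtain ⟨τ, hτ⟩ : ∃ τ : ℝ, τ = 2 * (X / L ^ (W' + 1)) := ⟨_, rfl⟩
  rw [← hτ] at hanti'
  obtain ⟨J₀, hJ₀⟩ : ∃ J₀ : ℕ, J₀ = ⌈ℓ ^ W⌉₊ + 1 := ⟨_, rfl⟩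
  have hℓW : 1 ≤ ℓ ^ W := one_le_pow₀ hℓ1
  have hJ₀1 : ℓ ^ W + 1 ≤ J₀ := by rw [hJ₀]; push_cast; linarith [Nat.le_ceil (ℓ ^ W)]
  have hJ₀2 : (J₀ : ℝ) ≤ ℓ ^ W + 2 := by
    have : (⌈ℓ ^ W⌉₊ : ℝ) < ℓ ^ W + 1 := Nat.ceil_lt_add_one (by positivity)
    rw [hJ₀]; push_cast; linarith
  have hsm : ℓ ^ W + 5 ≤ ℓ ^ (W + 1) := by rw [pow_succ]; nlinarith
  -- the events
  obtain ⟨E, hE⟩ : ∃ E : ℤ → ℕ × ℕ → Prop, E = fun j ω => 0 < Yv f j ω ∧ 2 ∣ Yv f j ω ∧ ¬ GG ε (Yv f j ω).toNat := ⟨_, rfl⟩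
  have hYf : ∀ j : ℤ, |j| ≤ J₀ → ∀ ω ∈ range N ×ˢ range 2, |(Yv f j ω : ℝ) - f ω.1| ≤ ℓ ^ W + 4 := by
    intro j hj ω hω
    rw [mem_product, mem_range, mem_range] at hω
    have hjr : |(j : ℝ)| ≤ J₀ := by exact_mod_cast hj
    have e1 : (Yv f j ω : ℝ) - f ω.1 = (ω.2 - Int.fract (f ω.1)) + j := by
      unfold Yv
      rw [← Int.self_sub_floor]
      push_cast
      ring
    rw [e1]
    refine (abs_add_le _ _).trans ?_
    have e2 : |(ω.2 : ℝ) - Int.fract (f ω.1)| ≤ 1 := by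
      have h0 := Int.fract_nonneg (f ω.1)
      have h1 := Int.fract_lt_one (f ω.1)
      have h2 : (ω.2 : ℝ) ≤ 1 := by exact_mod_cast (by omega : ω.2 ≤ 1)
      have h3 : (0 : ℝ) ≤ ω.2 := Nat.cast_nonneg _
      rw [abs_le]
      constructor <;> linarith
    linarith
  have hone : ∀ j : ℤ, |j| ≤ J₀ → ∑ ω ∈ range N ×ˢ range 2, (if E j ω then pr f N ω else 0) ≤ 1 / L ^ U' := by
    intro j hj
    have h6 := hgold X hXX₀ (2 * X) le_rfl (ℕ × ℕ) (range N ×ˢ range 2) (pr f N) (Yv f j) (by rw [← hV]; exact hlaw' j) (by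
      intro ω hω
      have e1 := hYf j hj ω hω
      have e2 := hsize ω.1 (by
        rw [mem_product, mem_range, hN] at hω
        omega)
      have e3 : (Yv f j ω : ℝ) ≤ X := by
        have := (abs_le.1 e1).2
        have := (abs_le.1 e2).2
        linarith
      exact_mod_cast e3) (E j) (fun ω => |f ω.1| ≤ τ) (by
      intro ω hω h7 h8
      have e1 := hYf j hj ω hω
      have h7' : (1 : ℝ) ≤ Yv f j ω := by exact_mod_cast h7
      rw [← hL] at h8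
      have e2 : ℓ ^ W + 4 ≤ X / L ^ (W' + 1) := by
        rw [le_div_iff₀ (by positivity)]
        have e3 : L ^ (W' + 1) ≤ ℓ ^ (2 * (W' + 1)) := by
          rw [pow_mul]
          exact pow_le_pow_left₀ hL0 hs2 _
        calc (ℓ ^ W + 4) * L ^ (W' + 1) ≤ ℓ ^ (W + 1) * ℓ ^ (2 * (W' + 1)) :=
              mul_le_mul (by linarith) e3 (by positivity) (by positivity)
          _ = ℓ ^ (W + 1 + 2 * (W' + 1)) := (pow_add ℓ (W + 1) (2 * (W' + 1))).symm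
          _ ≤ (x : ℝ) ^ δ := h3
          _ ≤ X := by linarith
      have e4 : |f ω.1| ≤ |(Yv f j ω : ℝ)| + |(Yv f j ω : ℝ) - f ω.1| := by
        have e5 : f ω.1 = (Yv f j ω : ℝ) - ((Yv f j ω : ℝ) - f ω.1) := by ring
        calc |f ω.1| = |(Yv f j ω : ℝ) - ((Yv f j ω : ℝ) - f ω.1)| := by rw [← e5]
          _ ≤ _ := abs_sub _ _
      rw [abs_of_pos (by linarith : (0 : ℝ) < Yv f j ω)] at e4
      rw [hτ]
      linarith) ?_ (by
      intro ω _ hω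
      rw [hE] at hω
      exact hω)
    · rw [← hL] at h6
      exact h6
    · -- few small values
      rw [← hL]
      have e1 : ∑ ω ∈ range N ×ˢ range 2, (if |f ω.1| ≤ τ then pr f N ω else 0) =
          ∑ n ∈ (range N).filter (fun n => |f n| ≤ τ), 1 / (N : ℝ) := by
        rw [sum_product, sum_filter]
        refine sum_congr rfl fun n _ => ?_
        rw [sum_range_succ, sum_range_succ, sum_range_zero, zero_add]
        simp only
        by_cases h7 : |f n| ≤ τ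
        · rw [if_pos h7, if_pos h7, if_pos h7]
          exact pr_two f N n
        · rw [if_neg h7, if_neg h7, if_neg h7, add_zero]
      rw [e1, sum_const, nsmul_eq_mul]
      have e2 := hanti' ((range N).filter (fun n => |f n| ≤ τ)) (fun n hn => (mem_filter.1 hn).2)
      have e3 : (x : ℝ) / N ≤ 1 := by
        rw [div_le_one hN0, hNr]
        linarith
      calc (((range N).filter (fun n => |f n| ≤ τ)).card : ℝ) * (1 / N) ≤ (x / ℓ ^ (2 * (U' + 1) + 1)) * (1 / N) :=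
            mul_le_mul_of_nonneg_right e2 (by positivity)
        _ = (x / N) * (1 / ℓ ^ (2 * (U' + 1) + 1)) := by ring
        _ ≤ 1 * (1 / ℓ ^ (2 * (U' + 1) + 1)) := mul_le_mul_of_nonneg_right e3 (by positivity)
        _ ≤ 1 / L ^ (U' + 1) := by
            rw [one_mul]
            apply one_div_le_one_div_of_le (by positivity)
            calc L ^ (U' + 1) ≤ (ℓ ^ 2) ^ (U' + 1) := pow_le_pow_left₀ hL0 hs2 _
              _ = ℓ ^ (2 * (U' + 1)) := by rw [← pow_mul]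
              _ ≤ ℓ ^ (2 * (U' + 1) + 1) := pow_le_pow_right₀ hℓ1 (by omega)
  -- the union
  obtain ⟨G, hG⟩ : ∃ G, G = (range N).filter fun n : ℕ => ∃ m : ℤ, 0 < m ∧ Even m ∧ |(m : ℝ) - f n| ≤ ℓ ^ W ∧
      ¬ GG ε m.toNat := ⟨_, rfl⟩
  rw [← hG]
  have hkey : ∀ n ∈ G, 1 / (2 * (N : ℝ)) ≤ ∑ j ∈ Icc (-(J₀ : ℤ)) J₀, ∑ b ∈ range 2, (if E j (n, b) then pr f N (n, b) else 0) := by
    intro n hn
    rw [hG, mem_filter] at hn
    obtain ⟨hnN, m, hm0, hm2, hmf, hmG⟩ := hn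
    have hnn : ∀ j : ℤ, ∀ b : ℕ, 0 ≤ (if E j (n, b) then pr f N (n, b) else 0) := by
      intro j b
      split_ifs
      · exact pr_nonneg _ _ _
      · exact le_rfl
    -- the choice of the rounding
    obtain ⟨b, hb2, hb⟩ : ∃ b : ℕ, b < 2 ∧ 1 / (2 * (N : ℝ)) ≤ pr f N (n, b) := by
      have h0 := Int.fract_nonneg (f n)
      have h1 := Int.fract_lt_one (f n)
      rcases le_or_gt (Int.fract (f n)) (1 / 2) with h | h
      · refine ⟨0, by norm_num, ?_⟩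
        unfold pr
        simp only [if_true]
        rw [div_le_div_iff₀ (by positivity) hN0]
        nlinarith
      · refine ⟨1, by norm_num, ?_⟩
        unfold pr
        simp only [one_ne_zero, if_false]
        rw [div_le_div_iff₀ (by positivity) hN0]
        nlinarith
    obtain ⟨j, hj⟩ : ∃ j : ℤ, j = m - ⌊f n⌋ - b := ⟨_, rfl⟩
    have hYm : Yv f j (n, b) = m := by unfold Yv; rw [hj]; ring
    have hjJ : |j| ≤ J₀ := by
      have e1 : |(j : ℝ)| ≤ ℓ ^ W + 1 := by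
        have e2 : (j : ℝ) = ((m : ℝ) - f n) + (Int.fract (f n) - b) := by
          rw [hj, ← Int.self_sub_floor]; push_cast; ring
        rw [e2]
        refine (abs_add_le _ _).trans ?_
        have e3 : |Int.fract (f n) - (b : ℝ)| ≤ 1 := by
          have h0 := Int.fract_nonneg (f n)
          have h1 := Int.fract_lt_one (f n)
          have h2 : (b : ℝ) ≤ 1 := by exact_mod_cast (by omega : b ≤ 1)
          have h3 : (0 : ℝ) ≤ b := Nat.cast_nonneg _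
          rw [abs_le]
          constructor <;> linarith
        linarith
      have e4 : |(j : ℝ)| ≤ J₀ := e1.trans hJ₀1
      exact_mod_cast e4
    have hEj : E j (n, b) := by
      rw [hE]
      simp only
      rw [hYm]
      exact ⟨hm0, hm2.two_dvd, hmG⟩
    calc 1 / (2 * (N : ℝ)) ≤ pr f N (n, b) := hb
      _ = (if E j (n, b) then pr f N (n, b) else 0) := by rw [if_pos hEj]
      _ ≤ ∑ b ∈ range 2, (if E j (n, b) then pr f N (n, b) else 0) :=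
          single_le_sum (f := fun b => if E j (n, b) then pr f N (n, b) else 0) (fun b _ => hnn j b) (mem_range.2 hb2)
      _ ≤ _ := single_le_sum (f := fun j => ∑ b ∈ range 2, (if E j (n, b) then pr f N (n, b) else 0))
          (fun j _ => sum_nonneg fun b _ => hnn j b) (mem_Icc.2 (abs_le.1 hjJ))
  have hsum : (G.card : ℝ) * (1 / (2 * N)) ≤ (2 * J₀ + 1) * (1 / L ^ U') := by
    calc (G.card : ℝ) * (1 / (2 * N)) = ∑ _n ∈ G, 1 / (2 * (N : ℝ)) := by rw [sum_const, nsmul_eq_mul]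
      _ ≤ ∑ n ∈ G, ∑ j ∈ Icc (-(J₀ : ℤ)) J₀, ∑ b ∈ range 2, (if E j (n, b) then pr f N (n, b) else 0) := sum_le_sum hkey
      _ ≤ ∑ n ∈ range N, ∑ j ∈ Icc (-(J₀ : ℤ)) J₀, ∑ b ∈ range 2, (if E j (n, b) then pr f N (n, b) else 0) := by
          apply sum_le_sum_of_subset_of_nonneg
          · rw [hG]; exact filter_subset _ _
          · intro n _ _
            refine sum_nonneg fun j _ => sum_nonneg fun b _ => ?_
            split_ifs
            · exact pr_nonneg _ _ _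
            · exact le_rfl
      _ = ∑ j ∈ Icc (-(J₀ : ℤ)) J₀, ∑ ω ∈ range N ×ˢ range 2, (if E j ω then pr f N ω else 0) := by
          rw [sum_comm]
          refine sum_congr rfl fun j _ => ?_
          rw [sum_product]
      _ ≤ ∑ j ∈ Icc (-(J₀ : ℤ)) J₀, 1 / L ^ U' := sum_le_sum fun j hj => hone j (abs_le.2 (mem_Icc.1 hj))
      _ = (2 * J₀ + 1) * (1 / L ^ U') := by
          rw [sum_const, Int.card_Icc, nsmul_eq_mul]
          have : ((J₀ : ℤ) + 1 - -(J₀ : ℤ)).toNat = 2 * J₀ + 1 := by omega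
          rw [this]
          push_cast
          ring
  have h9 : (2 * (J₀ : ℝ) + 1) ≤ ℓ ^ (W + 1) := by
    rw [pow_succ]
    nlinarith
  have h10 : 1 / L ^ U' ≤ 1 / ℓ ^ (U + W + 5) := by
    apply one_div_le_one_div_of_le (by positivity)
    rw [hU', pow_mul]
    exact pow_le_pow_left₀ hℓ0.le hs1 _
  have h11 : (G.card : ℝ) * (1 / (2 * N)) ≤ 1 / ℓ ^ (U + 4) := by
    refine hsum.trans ?_
    calc (2 * (J₀ : ℝ) + 1) * (1 / L ^ U') ≤ ℓ ^ (W + 1) * (1 / ℓ ^ (U + W + 5)) :=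
          mul_le_mul h9 h10 (by positivity) (by positivity)
      _ = 1 / ℓ ^ (U + 4) := by
          have e1 : ℓ ^ (U + W + 5) = ℓ ^ (W + 1) * ℓ ^ (U + 4) := by rw [← pow_add]; congr 1; ring
          have e2 : ℓ ^ (W + 1) ≠ 0 := by positivity
          rw [e1]
          field_simp
  rw [mul_one_div, div_le_div_iff₀ (by positivity) (by positivity), one_mul] at h11
  rw [le_div_iff₀ (by positivity)]
  have h12 : (4 : ℝ) ≤ ℓ ^ 4 := by
    calc (4 : ℝ) ≤ ℓ := by linarith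
      _ = ℓ ^ 1 := (pow_one _).symm
      _ ≤ ℓ ^ 4 := pow_le_pow_right₀ hℓ1 (by norm_num)
  have h13 : (G.card : ℝ) * ℓ ^ U * 4 ≤ 4 * x := by
    have hG0 : (0 : ℝ) ≤ G.card := Nat.cast_nonneg _
    have hGU : (0 : ℝ) ≤ G.card * ℓ ^ U := mul_nonneg hG0 (pow_nonneg hℓ0.le _)
    calc (G.card : ℝ) * ℓ ^ U * 4 ≤ G.card * ℓ ^ U * ℓ ^ 4 := mul_le_mul_of_nonneg_left h12 hGU
      _ = G.card * ℓ ^ (U + 4) := by rw [pow_add]; ring
      _ ≤ 2 * N := h11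
      _ ≤ 4 * x := by rw [hNr]; linarith
  linarith

end Pool.Agent.J4.H66.RP
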