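import Pool.Agent.J4.H66.RP.Main

/-!
# Goldbach's conjecture near the values of polynomials with real coefficients

Definitions used (all in `Pool.Agent.H560R3.GB`): `C₂`: the twin prime constant
`∏_{p > 2} (1 - 1 / (p - 1) ^ 2)`; `sing n`: the singular series
`2 C₂ ∏_{p ∣ n, p > 2} (p - 1) / (p - 2)`; `g n`: the number of ordered representations of `n` as a
sum of two primes; `HL n = sing n * n / log ^ 2 n`: the prediction of Hardy and Littlewood for `g n`.

The main steps are: (1) an inverse theorem for Weyl sums with a polynomial dependence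
(`Pool.Agent.J4.H66.RP.weyl_inv`): if `|∑_{n < N} e(P(n))| ≥ N / K` then `q` times the leading coefficient of `P` is at
a distance of at most `K ^ A / N ^ d` from an integer, for some `1 ≤ q ≤ K ^ A`; (2) a random rounding of `P(n)` (the
characteristic function of the rounded value is a superposition of few sums `∑ e((θ + h) P(n))`, without any condition on
the distribution of `P(n)` modulo one); (3) the second moment method for random integers whose characteristic function is
large at few frequencies only (`Pool.Agent.N469.SQ.fl_gold`, starting files).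
-/

set_option autoImplicit false

namespace Pool.Agent.Results.MP_7b7e48_nt.RealPolynomials

open Finset Pool.Agent.H560R3.GB

/-- `n` is a sum of two distinct primes, and the number of its representations as a sum of two primes
agrees with the prediction of Hardy and Littlewood up to a relative error of at most `ε`. -/
def Holds (ε : ℝ) (n : ℕ) : Prop :=
  |(g n : ℝ) - HL n| ≤ ε * HL n ∧ ∃ p q : ℕ, p.Prime ∧ q.Prime ∧ p ≠ q ∧ p + q = n

open Classical in
/-- Let the degree `d ≥ 1`, `B`, `U`, `W`, `δ > 0` and `ε > 0` be fixed and let `x` be large. Let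
`P(t) = a 0 + a 1 t + ... + a d t ^ d` be an arbitrary polynomial with REAL coefficients, with the leading coefficient
`x ^ (δ - d) ≤ |a d| ≤ log ^ B x` and with `|a i| x ^ i ≤ log ^ B x * |a d| x ^ d` for all `i ≤ d` (the bound `x₀` for `x` does
not depend on `P`). Then we have for all the integers `1 ≤ n ≤ x` with at most `x / log ^ U x` exceptions: ALL the positive
even integers `m` with `|m - P(n)| ≤ log ^ W x` are sums of two distinct primes, and the numbers of their representations
as a sum of two primes agree with the prediction of Hardy and Littlewood up to a relative error of at most `ε`. -/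
theorem result (d B U W : ℕ) (hd : 1 ≤ d) (δ ε : ℝ) (hδ : 0 < δ) (hε : 0 < ε) :
    ∃ x₀ : ℕ, ∀ x : ℕ, x₀ ≤ x → ∀ a : ℕ → ℝ,
      (∀ i ≤ d, |a i| * (x : ℝ) ^ i ≤ Real.log x ^ B * (|a d| * (x : ℝ) ^ d)) →
      (x : ℝ) ^ δ ≤ |a d| * (x : ℝ) ^ d → |a d| ≤ Real.log x ^ B →
      (((Icc 1 x).filter fun n : ℕ => ¬ ∀ m : ℕ, 0 < m → Even m →
        |(m : ℝ) - ∑ i ∈ range (d + 1), a i * (n : ℝ) ^ i| ≤ Real.log x ^ W → Holds ε m).card : ℝ) ≤ x / Real.log x ^ U := by
  obtain ⟨d', rfl⟩ : ∃ d', d = d' + 1 := ⟨d - 1, by omega⟩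
  obtain ⟨x₀, h0⟩ := Filter.eventually_atTop.1 ((Pool.Agent.J4.H66.RP.main d' (B + 1) U W δ ε hδ hε).and
    (Pool.Agent.J4.H66.RP.log_large (d' + 2)))
  refine ⟨x₀ + 3, fun x hx a ha1 ha2 ha3 => ?_⟩
  obtain ⟨h1, h2⟩ := h0 x (by omega)
  obtain ⟨P, hP⟩ : ∃ P : Polynomial ℝ, P = ∑ i ∈ range (d' + 1 + 1), Polynomial.C (a i) * Polynomial.X ^ i := ⟨_, rfl⟩
  have hev : ∀ t : ℝ, P.eval t = ∑ i ∈ range (d' + 1 + 1), a i * t ^ i := by
    intro t
    rw [hP, Polynomial.eval_finsetSum]
    simp
  have hco : P.coeff (d' + 1) = a (d' + 1) := by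
    rw [hP, Polynomial.finsetSum_coeff]
    simp only [Polynomial.coeff_C_mul, Polynomial.coeff_X_pow]
    rw [sum_eq_single (d' + 1)]
    · simp
    · intro i _ hi
      rw [if_neg (fun h => hi h.symm), mul_zero]
    · intro hn
      exact absurd (mem_range.2 (by omega)) hn
  have hx0 : (0 : ℝ) < x := by exact_mod_cast (by omega : 0 < x)
  have hl1 : 1 ≤ Real.log x := by
    have : (0 : ℝ) ≤ d' := Nat.cast_nonneg _
    linarith
  have hl0 : 0 < Real.log x := by linarith
  have hadm : Pool.Agent.J4.H66.RP.Adm d' (B + 1) δ x P := by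
    refine ⟨?_, ?_, ?_, ?_⟩
    · rw [hP]
      refine Polynomial.natDegree_sum_le_of_forall_le _ _ (fun i hi => ?_)
      rw [mem_range] at hi
      exact (Polynomial.natDegree_C_mul_X_pow_le _ _).trans (by omega)
    · intro n hn
      rw [hev, hco]
      have hnx : (n : ℝ) ≤ x := by exact_mod_cast hn
      calc |∑ i ∈ range (d' + 1 + 1), a i * (n : ℝ) ^ i| ≤ ∑ i ∈ range (d' + 1 + 1), |a i * (n : ℝ) ^ i| := abs_sum_le_sum_abs _ _
        _ ≤ ∑ _i ∈ range (d' + 1 + 1), Real.log x ^ B * (|a (d' + 1)| * (x : ℝ) ^ (d' + 1)) := by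
            refine sum_le_sum fun i hi => ?_
            rw [mem_range] at hi
            refine le_trans ?_ (ha1 i (by omega))
            rw [abs_mul, abs_of_nonneg (by positivity : (0 : ℝ) ≤ (n : ℝ) ^ i)]
            apply mul_le_mul_of_nonneg_left _ (abs_nonneg _)
            exact pow_le_pow_left₀ (Nat.cast_nonneg _) hnx i
        _ = (d' + 2) * (Real.log x ^ B * (|a (d' + 1)| * (x : ℝ) ^ (d' + 1))) := by
            rw [sum_const, card_range, nsmul_eq_mul]
            push_cast
            ring
        _ ≤ Real.log x * (Real.log x ^ B * (|a (d' + 1)| * (x : ℝ) ^ (d' + 1))) :=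
            mul_le_mul_of_nonneg_right h2 (by positivity)
        _ = _ := by rw [pow_succ]; ring
    · rw [hco]; exact ha2
    · rw [hco]
      exact ha3.trans (pow_le_pow_right₀ hl1 (by omega))
  refine le_trans ?_ (h1 P hadm)
  apply Nat.cast_le.2
  apply card_le_card
  intro n hn
  rw [mem_filter, mem_Icc] at hn
  rw [mem_filter, mem_range]
  obtain ⟨hn1, hn2⟩ := hn
  push Not at hn2
  obtain ⟨m, hm0, hm2, hm3, hm4⟩ := hn2
  refine ⟨by omega, (m : ℤ), by omega, ?_, ?_, ?_⟩
  · exact_mod_cast hm2
  · rw [hev, Int.cast_natCast]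
    exact hm3
  · rw [Int.toNat_natCast]
    exact hm4

end Pool.Agent.Results.MP_7b7e48_nt.RealPolynomials
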