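import Mathlib

set_option autoImplicit false

/-! A real number many multiples of which are close to integers. -/

namespace Pool.Agent.J4.H66.RP
open Finset

/-- `x` is close to an integer -/
def NI (x ε : ℝ) : Prop := ∃ m : ℤ, |x - m| ≤ ε

lemma NI.mono {x ε ε' : ℝ} (h : NI x ε) (h' : ε ≤ ε') : NI x ε' := by
  obtain ⟨m, hm⟩ := h
  exact ⟨m, hm.trans h'⟩

/-- some block is dense -/
lemma block (H : Finset ℕ) (N N' : ℕ) (hH : H ⊆ range N) (h1 : 1 ≤ N') (h2 : N' ≤ N) :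
    ∃ j : ℕ, H.card * N' ≤ 2 * N * (H.filter (fun h => h / N' = j)).card := by
  by_contra hcon
  push Not at hcon
  have e1 : H.card = ∑ j ∈ range (N / N' + 1), (H.filter (fun h => h / N' = j)).card := by
    apply card_eq_sum_card_fiberwise
    intro h hh
    have := mem_range.1 (hH hh)
    rw [mem_coe, mem_range]
    exact Nat.lt_succ_of_le (Nat.div_le_div_right this.le)
  have e2 : N' * (N / N' + 1) ≤ 2 * N := by
    have := Nat.mul_div_le N N'
    calc N' * (N / N' + 1) = N' * (N / N') + N' := by ring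
      _ ≤ N + N := by omega
      _ = 2 * N := by ring
  have e3 : ∑ j ∈ range (N / N' + 1), 2 * N * (H.filter (fun h => h / N' = j)).card <
      ∑ _j ∈ range (N / N' + 1), H.card * N' := by
    apply sum_lt_sum_of_nonempty
    · exact ⟨0, mem_range.2 (Nat.succ_pos _)⟩
    · intro j _
      exact hcon j
  rw [← mul_sum, ← e1, sum_const, card_range, smul_eq_mul] at e3
  have e4 : (N / N' + 1) * (H.card * N') ≤ 2 * N * H.card := by
    calc (N / N' + 1) * (H.card * N') = (N' * (N / N' + 1)) * H.card := by ring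
      _ ≤ 2 * N * H.card := Nat.mul_le_mul_right _ e2
  omega

/-- multiples by bounded numbers at every scale -/
lemma dense (K : ℝ) (hK : 1 ≤ K) (N : ℕ) (H : Finset ℕ) (hH : H ⊆ range N) (hN : (N : ℝ) ≤ K * H.card)
    (γ ε : ℝ) (hγ : ∀ h ∈ H, NI (h * γ) ε) (N' : ℕ) (h1 : 4 * K ≤ N') (h2 : N' ≤ N) :
    ∃ h : ℕ, 1 ≤ h ∧ h < N' ∧ (N' : ℝ) ≤ 4 * K * h ∧ NI (h * γ) (2 * ε) := by
  have hN'1 : 1 ≤ N' := by
    have : (0 : ℝ) < N' := by linarith
    exact_mod_cast this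
  have hN0 : (0 : ℝ) < N := by exact_mod_cast (by omega : 0 < N)
  have hN'0 : (0 : ℝ) < N' := by exact_mod_cast hN'1
  obtain ⟨j, hj⟩ := block H N N' hH hN'1 h2
  obtain ⟨B, hB⟩ : ∃ B, B = H.filter (fun h => h / N' = j) := ⟨_, rfl⟩
  rw [← hB] at hj
  have hBc : (N' : ℝ) ≤ 2 * K * B.card := by
    have e1 : (H.card : ℝ) * N' ≤ 2 * N * B.card := by exact_mod_cast hj
    have e2 : (N : ℝ) * N' ≤ N * (2 * K * B.card) := by
      calc (N : ℝ) * N' ≤ (K * H.card) * N' := mul_le_mul_of_nonneg_right hN hN'0.le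
        _ = K * (H.card * N') := by ring
        _ ≤ K * (2 * N * B.card) := mul_le_mul_of_nonneg_left e1 (by linarith)
        _ = _ := by ring
    exact le_of_mul_le_mul_left e2 hN0
  have hB2 : (2 : ℝ) ≤ B.card := by
    by_contra hcon
    push Not at hcon
    nlinarith
  have hB2' : 2 ≤ B.card := by exact_mod_cast hB2
  have hne : B.Nonempty := card_pos.1 (by omega)
  obtain ⟨a, ha⟩ : ∃ a, a = B.min' hne := ⟨_, rfl⟩
  obtain ⟨b, hb⟩ : ∃ b, b = B.max' hne := ⟨_, rfl⟩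
  have haB : a ∈ B := by rw [ha]; exact min'_mem _ _
  have hbB : b ∈ B := by rw [hb]; exact max'_mem _ _
  have hsub : B ⊆ Icc a b := by
    intro x hx
    rw [mem_Icc, ha, hb]
    exact ⟨min'_le _ _ hx, le_max' _ _ hx⟩
  have hcard := card_le_card hsub
  rw [Nat.card_Icc] at hcard
  have hab : b = a + (b - a) := by omega
  rw [hB, mem_filter] at haB hbB
  refine ⟨b - a, by omega, ?_, ?_, ?_⟩
  · have e1 := Nat.div_add_mod a N'
    have e2 := Nat.div_add_mod b N'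
    rw [haB.2] at e1
    rw [hbB.2] at e2
    have e3 := Nat.mod_lt b hN'1
    omega
  · have e1 : (B.card : ℝ) ≤ 2 * ((b - a : ℕ) : ℝ) := by
      have : B.card ≤ 2 * (b - a) := by omega
      exact_mod_cast this
    nlinarith
  · obtain ⟨m, hm⟩ := hγ a haB.1
    obtain ⟨n, hn⟩ := hγ b hbB.1
    refine ⟨n - m, ?_⟩
    have e1 : ((b - a : ℕ) : ℝ) = b - a := by rw [Nat.cast_sub (by omega)]
    rw [e1]
    have e2 : ((b : ℝ) - a) * γ - ((n - m : ℤ) : ℝ) = (b * γ - n) - (a * γ - m) := by push_cast; ring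
    rw [e2]
    refine (abs_sub _ _).trans ?_
    linarith

/-- If many multiples of `γ` are close to integers then a bounded multiple is very close to an integer. -/
theorem recur (K : ℝ) (hK : 1 ≤ K) (N : ℕ) (H : Finset ℕ) (hH : H ⊆ range N) (hN : (N : ℝ) ≤ K * H.card)
    (γ ε : ℝ) (hγ : ∀ h ∈ H, NI (h * γ) ε) (h8 : 8 * K ≤ N) (hε0 : 0 ≤ ε) (hε : 320 * K ^ 2 * ε < 1) :
    ∃ q : ℕ, 1 ≤ q ∧ (q : ℝ) ≤ 5 * K ∧ NI (q * γ) (40 * K ^ 2 * ε / N) := by
  have hN0 : (0 : ℝ) < N := by linarith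
  obtain ⟨N₁, hN₁⟩ : ∃ N₁ : ℕ, N₁ = ⌈4 * K⌉₊ := ⟨_, rfl⟩
  have hN₁a : 4 * K ≤ N₁ := by rw [hN₁]; exact Nat.le_ceil _
  have hN₁b : (N₁ : ℝ) < 4 * K + 1 := by rw [hN₁]; exact Nat.ceil_lt_add_one (by linarith)
  have hN₁c : N₁ ≤ N := by
    have : (N₁ : ℝ) ≤ N := by linarith
    exact_mod_cast this
  obtain ⟨q, hq1, hq2, _, m₁, hm₁⟩ := dense K hK N H hH hN γ ε hγ N₁ hN₁a hN₁c
  have hq5 : (q : ℝ) ≤ 5 * K := by
    have : (q : ℝ) < N₁ := by exact_mod_cast hq2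
    linarith
  refine ⟨q, hq1, hq5, m₁, ?_⟩
  obtain ⟨η, hη⟩ : ∃ η : ℝ, η = q * γ - m₁ := ⟨_, rfl⟩
  rw [← hη] at hm₁ ⊢
  rcases (abs_nonneg η).lt_or_eq with hη0 | hη0
  swap
  · rw [← hη0]; positivity
  have hεpos : 0 < ε := by linarith
  have hK2 : K ≤ K ^ 2 := by nlinarith
  obtain ⟨N', hN'⟩ : ∃ N' : ℕ, N' = min N ⌊1 / (4 * |η|)⌋₊ := ⟨_, rfl⟩
  have hbig : 4 * K + 1 ≤ 1 / (4 * |η|) := by
    rw [le_div_iff₀ (by positivity)]
    nlinarith
  have hfl : 1 / (4 * |η|) < (⌊1 / (4 * |η|)⌋₊ : ℝ) + 1 := Nat.lt_floor_add_one _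
  have hfl2 : (⌊1 / (4 * |η|)⌋₊ : ℝ) ≤ 1 / (4 * |η|) := Nat.floor_le (by positivity)
  have hN'a : 4 * K ≤ N' := by
    rw [hN', Nat.cast_min]
    apply le_min
    · linarith
    · linarith
  have hN'b : N' ≤ N := by rw [hN']; exact min_le_left _ _
  have hN'c : (N' : ℝ) ≤ 1 / (4 * |η|) := by
    refine le_trans ?_ hfl2
    exact_mod_cast (by rw [hN']; exact min_le_right _ _ : N' ≤ ⌊1 / (4 * |η|)⌋₊)
  obtain ⟨h, hh1, hh2, hh3, m, hm⟩ := dense K hK N H hH hN γ ε hγ N' hN'a hN'b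
  have hh0 : (0 : ℝ) < h := by exact_mod_cast hh1
  have hhN : (h : ℝ) ≤ N' := by exact_mod_cast hh2.le
  have hq0 : (0 : ℝ) < q := by exact_mod_cast hq1
  have hhη : (h : ℝ) * |η| ≤ 1 / 4 := by
    have e1 : (h : ℝ) ≤ 1 / (4 * |η|) := hhN.trans hN'c
    rw [le_div_iff₀ (by positivity)] at e1
    linarith
  have hqm : (q : ℝ) * |h * γ - m| ≤ 10 * K * ε := by
    calc (q : ℝ) * |h * γ - m| ≤ (5 * K) * (2 * ε) := mul_le_mul hq5 hm (abs_nonneg _) (by linarith)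
      _ = _ := by ring
  have hkey : (h : ℤ) * m₁ = m * q := by
    have e1 : |(((h : ℤ) * m₁ - m * q : ℤ) : ℝ)| < 1 := by
      have e2 : (((h : ℤ) * m₁ - m * q : ℤ) : ℝ) = q * (h * γ - m) - h * η := by
        rw [hη]; push_cast; ring
      rw [e2]
      refine lt_of_le_of_lt (abs_sub _ _) ?_
      rw [abs_mul, abs_mul, abs_of_pos hq0, abs_of_pos hh0]
      have e3 : 10 * K * ε < 1 / 32 := by nlinarith
      linarith
    have e2 : |(h : ℤ) * m₁ - m * q| < 1 := by exact_mod_cast e1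
    have e3 : (h : ℤ) * m₁ - m * q = 0 := Int.abs_lt_one_iff.1 e2
    linarith
  have hη2 : (h : ℝ) * |η| ≤ 10 * K * ε := by
    have e1 : (h : ℝ) * η = q * (h * γ - m) := by
      have e2 : ((h : ℤ) : ℝ) * m₁ = m * q := by exact_mod_cast hkey
      rw [Int.cast_natCast] at e2
      rw [hη, mul_sub, e2]
      ring
    calc (h : ℝ) * |η| = |(h : ℝ) * η| := by rw [abs_mul, abs_of_pos hh0]
      _ = q * |h * γ - m| := by rw [e1, abs_mul, abs_of_pos hq0]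
      _ ≤ _ := hqm
  have hη3 : (N' : ℝ) * |η| ≤ 40 * K ^ 2 * ε := by
    calc (N' : ℝ) * |η| ≤ (4 * K * h) * |η| := mul_le_mul_of_nonneg_right hh3 (abs_nonneg _)
      _ = 4 * K * (h * |η|) := by ring
      _ ≤ 4 * K * (10 * K * ε) := mul_le_mul_of_nonneg_left hη2 (by linarith)
      _ = _ := by ring
  rw [le_div_iff₀ hN0]
  rcases min_choice N ⌊1 / (4 * |η|)⌋₊ with h5 | h5
  · rw [hN', h5] at hη3
    linarith
  · exfalso
    rw [hN', h5] at hη3
    have e1 : 1 / (4 * |η|) ≤ 2 * (⌊1 / (4 * |η|)⌋₊ : ℝ) := by linarith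
    have e2 : 1 / (4 * |η|) * |η| = 1 / 4 := by field_simp
    have e3 : 1 / (4 * |η|) * |η| ≤ 2 * (⌊1 / (4 * |η|)⌋₊ : ℝ) * |η| := mul_le_mul_of_nonneg_right e1 (abs_nonneg _)
    nlinarith

end Pool.Agent.J4.H66.RP
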